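import Pool.Agent.K1H53.SD.Mean

/-!
Functions of two out of three independent groups of sites which are pairwise close are close to a
constant.
-/

open MeasureTheory ProbabilityTheory Set
open Classical

set_option linter.unusedSectionVars false

namespace Pool.Agent.K1H53.KP

open Pool.Agent.K1H53.SD

/-- selection of two coordinates -/
lemma select {A B C : Type*} [MeasurableSpace A] [MeasurableSpace B] [MeasurableSpace C]
    {μA : Measure A} {μB : Measure B} {μC : Measure C} [IsProbabilityMeasure μA]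
    [IsProbabilityMeasure μB] [IsProbabilityMeasure μC] {Bd : Set ((A × B) × C)}
    (hB : MeasurableSet Bd) {δ : ENNReal} (h : ((μA.prod μB).prod μC) Bd ≤ δ) :
    ∃ b c, μA {a | ((a, b), c) ∈ Bd} ≤ δ ∧ (μA.prod μB) {p | (p, c) ∈ Bd} ≤ δ := by
  rw [Measure.prod_apply_symm hB] at h
  obtain ⟨c, hc⟩ := exists_le_lintegral (μ := μC)
    (f := fun c => (μA.prod μB) ((fun p => (p, c)) ⁻¹' Bd))
    (measurable_measure_prodMk_right hB).aemeasurable
  have hc1 : (μA.prod μB) ((fun p => (p, c)) ⁻¹' Bd) ≤ δ := hc.trans h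
  have mS : MeasurableSet ((fun p : A × B => (p, c)) ⁻¹' Bd) :=
    (measurable_id.prodMk measurable_const) hB
  have h2 := hc1
  rw [Measure.prod_apply_symm mS] at h2
  obtain ⟨b, hb⟩ := exists_le_lintegral (μ := μB)
    (f := fun b => μA ((fun a => (a, b)) ⁻¹' ((fun p : A × B => (p, c)) ⁻¹' Bd)))
    (measurable_measure_prodMk_right mS).aemeasurable
  exact ⟨b, c, hb.trans h2, hc1⟩

/-- gluing of three fields -/
noncomputable def glue {S : Type*} (SA SB : Set S) (p : ((S → ℝ) × (S → ℝ)) × (S → ℝ)) : S → ℝ :=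
  fun x => if x ∈ SA then p.1.1 x else if x ∈ SB then p.1.2 x else p.2 x

lemma measurable_glue {S : Type*} (SA SB : Set S) : Measurable (glue SA SB) := by
  rw [measurable_pi_iff]
  intro x
  unfold glue
  by_cases h1 : x ∈ SA
  · simp only [if_pos h1]
    exact (measurable_pi_apply x).comp (measurable_fst.comp measurable_fst)
  · by_cases h2 : x ∈ SB
    · simp only [if_neg h1, if_pos h2]
      exact (measurable_pi_apply x).comp (measurable_snd.comp measurable_fst)
    · simp only [if_neg h1, if_neg h2]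
      exact (measurable_pi_apply x).comp measurable_snd

lemma glue_law {S : Type*} (SA SB : Set S) (μ : Measure ℝ) [IsProbabilityMeasure μ] :
    Measure.map (glue SA SB) (((Measure.infinitePi (fun _ : S => μ)).prod
      (Measure.infinitePi (fun _ : S => μ))).prod (Measure.infinitePi (fun _ : S => μ))) =
      Measure.infinitePi (fun _ : S => μ) := by
  apply Measure.eq_infinitePi
  intro s t ht
  rw [Measure.map_apply (measurable_glue SA SB)
    (MeasurableSet.pi (Finset.countable_toSet s) (fun i _ => ht i))]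
  set s1 := s.filter (fun x => x ∈ SA) with hs1
  set s2 := s.filter (fun x => ¬ x ∈ SA) with hs2
  set s21 := s2.filter (fun x => x ∈ SB) with hs21
  set s22 := s2.filter (fun x => ¬ x ∈ SB) with hs22
  have e : glue SA SB ⁻¹' ((s : Set S).pi t) =
      (((s1 : Set S).pi t) ×ˢ ((s21 : Set S).pi t)) ×ˢ ((s22 : Set S).pi t) := by
    ext p
    simp only [mem_preimage, Set.mem_pi, Finset.mem_coe, mem_prod, hs1, hs21, hs22, hs2,
      Finset.mem_filter]
    constructor
    · intro h
      refine ⟨⟨fun i hi => ?_, fun i hi => ?_⟩, fun i hi => ?_⟩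
      · have := h i hi.1
        unfold glue at this
        rwa [if_pos hi.2] at this
      · have := h i hi.1.1
        unfold glue at this
        rwa [if_neg hi.1.2, if_pos hi.2] at this
      · have := h i hi.1.1
        unfold glue at this
        rwa [if_neg hi.1.2, if_neg hi.2] at this
    · rintro ⟨⟨h1, h2⟩, h3⟩ i hi
      unfold glue
      split_ifs with c1 c2
      · exact h1 i ⟨hi, c1⟩
      · exact h2 i ⟨⟨hi, c1⟩, c2⟩
      · exact h3 i ⟨⟨hi, c1⟩, c2⟩
  rw [e, Measure.prod_prod, Measure.prod_prod, Measure.infinitePi_pi _ (fun i _ => ht i),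
    Measure.infinitePi_pi _ (fun i _ => ht i), Measure.infinitePi_pi _ (fun i _ => ht i),
    ← Finset.prod_filter_mul_prod_filter_not s (fun x => x ∈ SA) (fun i => μ (t i)),
    ← hs1, ← hs2,
    ← Finset.prod_filter_mul_prod_filter_not s2 (fun x => x ∈ SB) (fun i => μ (t i)),
    ← hs21, ← hs22, mul_assoc]

variable {Ω : Type*} [MeasurableSpace Ω] {P : Measure Ω} [IsProbabilityMeasure P]
variable {ω : ℕ → ℤ → Ω → ℝ}

lemma law_env (he : IsEnv P ω) : P.map (fun a (s : ℕ × ℤ) => ω s.1 s.2 a) =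
    Measure.infinitePi (fun _ : ℕ × ℤ => P.map (ω 1 0)) := by
  have h3 := he.indep.map_fun_eq_infinitePi_map (fun s => he.meas _ _)
  refine h3.trans ?_
  congr 1
  ext1 s
  exact (he.ident s.1 s.2).map_eq

/-- probabilities in the product space of three copies -/
lemma prob_glue (he : IsEnv P ω) (SA SB : Set (ℕ × ℤ)) {E : Set (ℕ → ℤ → ℝ)}
    (hE : MeasurableSet E) :
    P {a | fld ω a ∈ E} = (((Measure.infinitePi (fun _ : ℕ × ℤ => P.map (ω 1 0))).prod
      (Measure.infinitePi (fun _ : ℕ × ℤ => P.map (ω 1 0)))).prod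
        (Measure.infinitePi (fun _ : ℕ × ℤ => P.map (ω 1 0))))
      {p | (fun i x => glue SA SB p (i, x)) ∈ E} := by
  have hprob : IsProbabilityMeasure (P.map (ω 1 0)) :=
    Measure.isProbabilityMeasure_map (he.meas 1 0).aemeasurable
  have hE' : MeasurableSet ((fun (f : ℕ × ℤ → ℝ) (i : ℕ) (x : ℤ) => f (i, x)) ⁻¹' E) :=
    measurable_curry' hE
  have h1 : (P.map (fun a (s : ℕ × ℤ) => ω s.1 s.2 a))
      ((fun (f : ℕ × ℤ → ℝ) (i : ℕ) (x : ℤ) => f (i, x)) ⁻¹' E) = P {a | fld ω a ∈ E} := by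
    rw [Measure.map_apply (measurable_field he (τ := fun i x => (i, x))) hE']
    rfl
  rw [← h1, law_env he, ← glue_law SA SB (P.map (ω 1 0)),
    Measure.map_apply (measurable_glue SA SB) hE', glue_law SA SB (P.map (ω 1 0))]
  rfl

/-- three functions of two out of three groups of sites -/
theorem three (he : IsEnv P ω) (SA SB : Set (ℕ × ℤ)) {Y M G : (ℕ → ℤ → ℝ) → ℝ}
    (mY : Measurable Y) (mM : Measurable M) (mG : Measurable G)
    (hY : ∀ η η' : ℕ → ℤ → ℝ, (∀ i x, (i, x) ∈ SA ∪ SB → η i x = η' i x) → Y η = Y η')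
    (hM : ∀ η η' : ℕ → ℤ → ℝ, (∀ i x, (i, x) ∈ SA ∨ (i, x) ∉ SB → η i x = η' i x) → M η = M η')
    (hG : ∀ η η' : ℕ → ℤ → ℝ, (∀ i x, (i, x) ∉ SA → η i x = η' i x) → G η = G η')
    {L1 L2 δ : ℝ} (hδ : 0 ≤ δ)
    (h : P.real {a | ¬ (|Y (fld ω a) - M (fld ω a)| ≤ L1 ∧ |Y (fld ω a) - G (fld ω a)| ≤ L2)} ≤ δ) :
    ∃ m, 1 - 2 * δ ≤ P.real {a | |Y (fld ω a) - m| ≤ 2 * L1 + L2} := by
  have hprob : IsProbabilityMeasure (P.map (ω 1 0)) :=
    Measure.isProbabilityMeasure_map (he.meas 1 0).aemeasurable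
  set π := Measure.infinitePi (fun _ : ℕ × ℤ => P.map (ω 1 0)) with hπ
  set gg : ((ℕ × ℤ → ℝ) × (ℕ × ℤ → ℝ)) × (ℕ × ℤ → ℝ) → ℕ → ℤ → ℝ :=
    fun p i x => glue SA SB p (i, x) with hgg
  have mgg : Measurable gg := measurable_curry'.comp (measurable_glue SA SB)
  set E : Set (ℕ → ℤ → ℝ) := {η | ¬ (|Y η - M η| ≤ L1 ∧ |Y η - G η| ≤ L2)} with hE
  have mE : MeasurableSet E := by
    apply MeasurableSet.compl
    apply MeasurableSet.inter
    · exact measurableSet_le ((mY.sub mM).abs) measurable_const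
    · exact measurableSet_le ((mY.sub mG).abs) measurable_const
  have h1 : ((π.prod π).prod π) (gg ⁻¹' E) ≤ ENNReal.ofReal δ := by
    have := prob_glue he SA SB mE
    rw [← hπ] at this
    have e : ((π.prod π).prod π) (gg ⁻¹' E) = P {a | fld ω a ∈ E} := this.symm
    rw [e, ← ENNReal.ofReal_toReal (measure_ne_top P _)]
    exact ENNReal.ofReal_le_ofReal h
  obtain ⟨b0, c0, hb, hc⟩ := select (mgg mE) h1
  set m := G (gg ((0, b0), c0)) with hm
  refine ⟨m, ?_⟩
  -- the two bad events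
  set B1 : Set ((ℕ × ℤ → ℝ) × (ℕ × ℤ → ℝ)) := {p | (p, c0) ∈ gg ⁻¹' E} with hB1
  set B2 : Set (ℕ × ℤ → ℝ) := {a | ((a, b0), c0) ∈ gg ⁻¹' E} with hB2
  have mB2 : MeasurableSet B2 := by
    have : Measurable (fun a : ℕ × ℤ → ℝ => ((a, b0), c0)) :=
      (measurable_id.prodMk measurable_const).prodMk measurable_const
    exact this (mgg mE)
  set F : Set (ℕ → ℤ → ℝ) := {η | ¬ |Y η - m| ≤ 2 * L1 + L2} with hF
  have mF : MeasurableSet F :=
    (measurableSet_le ((mY.sub_const m).abs) measurable_const).compl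
  have hsub : gg ⁻¹' F ⊆ (B1 ∪ (Prod.fst ⁻¹' B2)) ×ˢ (univ : Set (ℕ × ℤ → ℝ)) := by
    rintro ⟨⟨a, b⟩, c⟩ hp
    refine ⟨?_, mem_univ _⟩
    by_contra hcon
    rw [mem_union, not_or] at hcon
    obtain ⟨n1, n2⟩ := hcon
    have n1' : |Y (gg ((a, b), c0)) - M (gg ((a, b), c0))| ≤ L1 := by
      by_contra h0
      exact n1 (show gg ((a, b), c0) ∈ E from fun h5 => h0 h5.1)
    have n2' : |Y (gg ((a, b0), c0)) - M (gg ((a, b0), c0))| ≤ L1 ∧
        |Y (gg ((a, b0), c0)) - G (gg ((a, b0), c0))| ≤ L2 := by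
      by_contra h0
      exact n2 (show gg ((a, b0), c0) ∈ E from h0)
    have y1 : Y (gg ((a, b), c)) = Y (gg ((a, b), c0)) := by
      apply hY
      intro i x hi
      simp only [hgg, glue]
      rcases hi with hi | hi
      · rw [if_pos hi, if_pos hi]
      · by_cases h6 : (i, x) ∈ SA
        · rw [if_pos h6, if_pos h6]
        · rw [if_neg h6, if_neg h6, if_pos hi, if_pos hi]
    have y2 : M (gg ((a, b), c0)) = M (gg ((a, b0), c0)) := by
      apply hM
      intro i x hi
      simp only [hgg, glue]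
      by_cases h6 : (i, x) ∈ SA
      · rw [if_pos h6, if_pos h6]
      · rcases hi with hi | hi
        · exact absurd hi h6
        · rw [if_neg h6, if_neg h6, if_neg hi, if_neg hi]
    have y3 : G (gg ((a, b0), c0)) = m := by
      apply hG
      intro i x hi
      simp only [hgg, glue]
      rw [if_neg hi, if_neg hi]
    apply hp
    rw [y1]
    rw [y2] at n1'
    rw [y3] at n2'
    have t1 := abs_le.1 n1'
    have t2 := abs_le.1 n2'.1
    have t3 := abs_le.1 n2'.2
    rw [abs_le]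
    constructor <;> linarith [t1.1, t1.2, t2.1, t2.2, t3.1, t3.2]
  have h2 : ((π.prod π).prod π) (gg ⁻¹' F) ≤ ENNReal.ofReal (2 * δ) := by
    calc ((π.prod π).prod π) (gg ⁻¹' F)
        ≤ ((π.prod π).prod π) ((B1 ∪ (Prod.fst ⁻¹' B2)) ×ˢ (univ : Set (ℕ × ℤ → ℝ))) :=
          measure_mono hsub
      _ = (π.prod π) (B1 ∪ (Prod.fst ⁻¹' B2)) := by
          rw [Measure.prod_prod, measure_univ, mul_one]
      _ ≤ (π.prod π) B1 + (π.prod π) (Prod.fst ⁻¹' B2) := measure_union_le _ _
      _ ≤ ENNReal.ofReal δ + ENNReal.ofReal δ := by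
          apply add_le_add hc
          have : (π.prod π) (Prod.fst ⁻¹' B2) = π B2 := by
            have e : (Prod.fst ⁻¹' B2 : Set ((ℕ × ℤ → ℝ) × (ℕ × ℤ → ℝ))) = B2 ×ˢ univ := by
              ext p; simp
            rw [e, Measure.prod_prod, measure_univ, mul_one]
          rw [this]
          exact hb
      _ = ENNReal.ofReal (2 * δ) := by
          rw [← ENNReal.ofReal_add hδ hδ]; ring_nf
  have h3 : P.real {a | fld ω a ∈ F} ≤ 2 * δ := by
    rw [measureReal_def]
    apply ENNReal.toReal_le_of_le_ofReal (by linarith)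
    rw [prob_glue he SA SB mF]
    exact h2
  have h4 : (1 : ℝ) ≤ P.real {a | |Y (fld ω a) - m| ≤ 2 * L1 + L2} + P.real {a | fld ω a ∈ F} := by
    have hu : (univ : Set Ω) ⊆ {a | |Y (fld ω a) - m| ≤ 2 * L1 + L2} ∪ {a | fld ω a ∈ F} := by
      intro a _
      by_cases h5 : |Y (fld ω a) - m| ≤ 2 * L1 + L2
      · exact Or.inl h5
      · exact Or.inr h5
    calc (1 : ℝ) = P.real univ := (probReal_univ (μ := P)).symm
      _ ≤ P.real ({a | |Y (fld ω a) - m| ≤ 2 * L1 + L2} ∪ {a | fld ω a ∈ F}) :=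
          measureReal_mono hu
      _ ≤ _ := measureReal_union_le _ _
  linarith

end Pool.Agent.K1H53.KP
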