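import Pool.Agent.K1H53.SF.FFinal

/-!
Second differences of the mean free energies in almost every direction, at all scales `2 ^ j`.
-/

open MeasureTheory ProbabilityTheory Set Filter

set_option linter.unusedSectionVars false

namespace Pool.Agent.K1H53.KP

open Pool.Agent.K1H53.SD Pool.Agent.K1H53.SF

variable {Ω : Type*} [MeasurableSpace Ω] {P : Measure Ω} [IsProbabilityMeasure P]
variable {ω : ℕ → ℤ → Ω → ℝ}

/-- the radius of the directions at scale `s` -/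
noncomputable def cs (a : ℝ) (s : ℕ) : ℝ := 14 * (s : ℝ) ^ a / s

/-- second differences -/
noncomputable def gs (P : Measure Ω) (ω : ℕ → ℤ → Ω → ℝ) (β a : ℝ) (s : ℕ) (v : ℝ) : ℝ :=
  Hf P ω β s (v - cs a s) - Hf P ω β s (v + cs a s)

lemma vol_bound (he : IsEnv P ω) (hexp : HasExp P ω) {β C : ℝ} (hC0 : 0 < C)
    (hC : ∀ (n : ℕ) (x : ℤ), |x| ≤ (n : ℤ) → (x - n) % 2 = 0 → |am P ω β n x| ≤ C * n)
    {a e ε : ℝ} {s : ℕ} (hs : 1 ≤ s) (hsε : 4 ≤ s * ε) (hε : 0 < ε) (hε1 : ε < 1)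
    (hc : cs a s ≤ ε / 2) :
    volume {v | v ∈ Icc (-1 + ε) (1 - ε) ∧ (s : ℝ) ^ (a - 1 + e) < gs P ω β a s v} ≤
      ENNReal.ofReal (896 * C / ε * (s : ℝ) ^ (-e)) := by
  have hsR : (0 : ℝ) < s := by exact_mod_cast hs
  set c := cs a s with hcd
  have hc0 : 0 ≤ c := by rw [hcd]; unfold cs; positivity
  set K := (s : ℝ) ^ (a - 1 + e) with hK
  have hK0 : 0 < K := Real.rpow_pos_of_pos hsR _
  have hH := Hf_anti he hexp β hs
  set H := Hf P ω β s with hHd
  set g : ℝ → ℝ := fun v => H (v - c) - H (v + c) with hg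
  have hg0 : ∀ v, 0 ≤ g v := fun v => sub_nonneg.2 (hH (by linarith))
  have ig : IntegrableOn g (Icc (-1 + ε) (1 - ε)) volume := by
    have i1 : IntervalIntegrable (fun s => H (s - c)) volume (-1 + ε) (1 - ε) :=
      (hH.comp_monotone (fun x y hxy => by simpa using hxy)).intervalIntegrable
    have i2 : IntervalIntegrable (fun s => H (s + c)) volume (-1 + ε) (1 - ε) :=
      (hH.comp_monotone (fun x y hxy => by simpa using hxy)).intervalIntegrable
    have := i1.sub i2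
    rw [intervalIntegrable_iff_integrableOn_Icc_of_le (by linarith)] at this
    exact this
  have hM := mul_meas_ge_le_integral_of_nonneg (μ := volume.restrict (Icc (-1 + ε) (1 - ε)))
    (f := g) (Filter.Eventually.of_forall hg0) ig K
  have h1 : ∫ x in Icc (-1 + ε) (1 - ε), g x ≤ 2 * c * (H (-1 + ε - c) - H (1 - ε + c)) := by
    calc ∫ x in Icc (-1 + ε) (1 - ε), g x = ∫ x in (-1 + ε)..(1 - ε), g x := by
          rw [integral_Icc_eq_integral_Ioc, ← intervalIntegral.integral_of_le (by linarith)]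
      _ ≤ _ := integral_diff hH _ _ hc0
  have g1 : H (-1 + ε - c) ≤ 16 * C / ε :=
    (hH (by linarith)).trans (Hf_low he hexp β hC0 hC hε hε1 hsε)
  have g2 : -(16 * C / ε) ≤ H (1 - ε + c) :=
    (Hf_high he hexp β hC0 hC hε hε1 hsε).trans (hH (by linarith))
  have h2 : 2 * c * (H (-1 + ε - c) - H (1 - ε + c)) ≤ 2 * c * (32 * C / ε) := by
    apply mul_le_mul_of_nonneg_left _ (by positivity)
    have : 32 * C / ε = 16 * C / ε + 16 * C / ε := by ring
    linarith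
  have h3 : (volume.restrict (Icc (-1 + ε) (1 - ε))).real {x | K ≤ g x} ≤
      896 * C / ε * (s : ℝ) ^ (-e) := by
    have h4 : K * (volume.restrict (Icc (-1 + ε) (1 - ε))).real {x | K ≤ g x} ≤
        2 * c * (32 * C / ε) := hM.trans (h1.trans h2)
    rw [← le_div_iff₀' hK0] at h4
    refine h4.trans (le_of_eq ?_)
    have e1 : (s : ℝ) ^ a = (s : ℝ) * ((s : ℝ) ^ (a - 1 + e) * (s : ℝ) ^ (-e)) := by
      rw [← Real.rpow_add hsR]
      nth_rewrite 2 [← Real.rpow_one (s : ℝ)]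
      rw [← Real.rpow_add hsR]
      congr 1
      ring
    rw [hcd]
    unfold cs
    rw [e1, hK]
    field_simp
    ring
  have h5 : volume {v | v ∈ Icc (-1 + ε) (1 - ε) ∧ K < gs P ω β a s v} ≤
      (volume.restrict (Icc (-1 + ε) (1 - ε))) {x | K ≤ g x} := by
    calc _ ≤ volume ({x | K ≤ g x} ∩ Icc (-1 + ε) (1 - ε)) :=
          measure_mono fun v hv => ⟨(show K < g v from hv.2).le, hv.1⟩
      _ ≤ _ := Measure.le_restrict_apply _ _
  refine h5.trans ?_
  rw [← ENNReal.ofReal_toReal (measure_ne_top (volume.restrict (Icc (-1 + ε) (1 - ε))) _)]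
  exact ENNReal.ofReal_le_ofReal h3

lemma cs_tendsto {a : ℝ} (ha : a < 1) : Tendsto (fun s : ℕ => cs a s) atTop (nhds 0) := by
  have h1 : Tendsto (fun s : ℕ => 14 * (s : ℝ) ^ (-(1 - a))) atTop (nhds (14 * 0)) :=
    ((tendsto_rpow_neg_atTop (by linarith)).comp tendsto_natCast_atTop_atTop).const_mul 14
  rw [mul_zero] at h1
  refine h1.congr' ?_
  filter_upwards [eventually_ge_atTop 1] with s hs
  have hsR : (0 : ℝ) < s := by exact_mod_cast hs
  unfold cs
  have e1 : (s : ℝ) ^ a = (s : ℝ) ^ (-(1 - a)) * s := by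
    nth_rewrite 3 [← Real.rpow_one (s : ℝ)]
    rw [← Real.rpow_add hsR]
    congr 1
    ring
  rw [e1]
  field_simp

lemma two_pow_tendsto : Tendsto (fun j : ℕ => 2 ^ j) atTop (atTop : Filter ℕ) :=
  tendsto_pow_atTop_atTop_of_one_lt (by norm_num)

/-- at fixed exponents and distance to the boundary -/
lemma ae_fixed (he : IsEnv P ω) (hexp : HasExp P ω) (β : ℝ) {a e ε : ℝ} (ha1 : a < 1)
    (he0 : 0 < e) (hε : 0 < ε) (hε1 : ε < 1) :
    ∀ᵐ v : ℝ, v ∈ Icc (-1 + ε) (1 - ε) → ∀ᶠ j : ℕ in atTop,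
      gs P ω β a (2 ^ j) v ≤ ((2 ^ j : ℕ) : ℝ) ^ (a - 1 + e) := by
  obtain ⟨C, hC0, hC⟩ := am_bound he hexp β
  have h1 : ∀ᶠ j : ℕ in atTop, cs a (2 ^ j) ≤ ε / 2 :=
    ((cs_tendsto ha1).comp two_pow_tendsto).eventually_le_const (by linarith)
  have h2 : ∀ᶠ j : ℕ in atTop, 4 ≤ ((2 ^ j : ℕ) : ℝ) * ε := by
    have : Tendsto (fun j : ℕ => ((2 ^ j : ℕ) : ℝ) * ε) atTop atTop :=
      (tendsto_natCast_atTop_atTop.comp two_pow_tendsto).atTop_mul_const hε
    exact this.eventually_ge_atTop 4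
  obtain ⟨j0, hj0⟩ := eventually_atTop.1 (h1.and h2)
  set A : ℕ → Set ℝ := fun j => {v | v ∈ Icc (-1 + ε) (1 - ε) ∧
    ((2 ^ (j + j0) : ℕ) : ℝ) ^ (a - 1 + e) < gs P ω β a (2 ^ (j + j0)) v} with hA
  have hvol : ∀ j, volume (A j) ≤ ENNReal.ofReal (896 * C / ε *
      ((2 : ℝ) ^ (-e)) ^ (j + j0)) := by
    intro j
    have h3 := hj0 (j + j0) (by omega)
    have := vol_bound (β := β) he hexp hC0 hC (a := a) (e := e) (ε := ε) (s := 2 ^ (j + j0))
      Nat.one_le_two_pow h3.2 hε hε1 h3.1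
    refine this.trans (le_of_eq ?_)
    congr 2
    push_cast
    rw [← Real.rpow_natCast, ← Real.rpow_natCast, ← Real.rpow_mul (by norm_num),
      ← Real.rpow_mul (by norm_num)]
    congr 1
    ring
  have hs : Summable (fun j : ℕ => 896 * C / ε * ((2 : ℝ) ^ (-e)) ^ (j + j0)) := by
    apply Summable.mul_left
    have h4 : (2 : ℝ) ^ (-e) < 1 := Real.rpow_lt_one_of_one_lt_of_neg (by norm_num) (by linarith)
    have h5 : (0 : ℝ) ≤ (2 : ℝ) ^ (-e) := by positivity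
    simp_rw [pow_add]
    exact (summable_geometric_of_lt_one h5 h4).mul_right _
  have hsum : ∑' j, volume (A j) ≠ ⊤ := by
    apply ne_top_of_le_ne_top _ (ENNReal.tsum_le_tsum hvol)
    rw [← ENNReal.ofReal_tsum_of_nonneg (fun j => by positivity) hs]
    exact ENNReal.ofReal_ne_top
  filter_upwards [ae_eventually_notMem hsum] with v hv hvI
  obtain ⟨j1, hj1⟩ := eventually_atTop.1 hv
  rw [eventually_atTop]
  refine ⟨j1 + j0, fun j hj => ?_⟩
  obtain ⟨i, rfl⟩ : ∃ i, j = i + j0 := ⟨j - j0, by omega⟩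
  have := hj1 i (by omega)
  by_contra hcon
  push Not at hcon
  exact this ⟨hvI, hcon⟩

/-- second differences in almost every direction -/
theorem ae_all (he : IsEnv P ω) (hexp : HasExp P ω) (β : ℝ) :
    ∀ᵐ v : ℝ, v ∈ Ioo (-1 : ℝ) 1 → ∀ a e : ℚ, (a : ℝ) < 1 → 0 < (e : ℝ) →
      ∀ᶠ j : ℕ in atTop, gs P ω β a (2 ^ j) v ≤ ((2 ^ j : ℕ) : ℝ) ^ ((a : ℝ) - 1 + e) := by
  have h : ∀ᵐ v : ℝ, ∀ (a e : ℚ) (k : ℕ), (a : ℝ) < 1 → 0 < (e : ℝ) →
      v ∈ Icc (-1 + 1 / ((k : ℝ) + 2)) (1 - 1 / ((k : ℝ) + 2)) →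
      ∀ᶠ j : ℕ in atTop, gs P ω β a (2 ^ j) v ≤ ((2 ^ j : ℕ) : ℝ) ^ ((a : ℝ) - 1 + e) := by
    rw [ae_all_iff]; intro a
    rw [ae_all_iff]; intro e
    rw [ae_all_iff]; intro k
    by_cases hall : (a : ℝ) < 1 ∧ 0 < (e : ℝ)
    · have hk : (0 : ℝ) ≤ k := Nat.cast_nonneg k
      have := ae_fixed he hexp β hall.1 hall.2 (ε := 1 / ((k : ℝ) + 2)) (by positivity)
        (by rw [div_lt_one (by positivity)]; linarith)
      filter_upwards [this] with v hv
      exact fun _ _ hvI => hv hvI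
    · exact Eventually.of_forall fun v h0 h1 => absurd ⟨h0, h1⟩ hall
  filter_upwards [h] with v hv hv1 a e ha1 he0
  obtain ⟨k, hk⟩ := exists_nat_gt (1 / min (v - -1) (1 - v))
  have hmin : 0 < min (v - -1) (1 - v) := lt_min (by linarith [hv1.1]) (by linarith [hv1.2])
  have hk2 : 1 / ((k : ℝ) + 2) ≤ min (v - -1) (1 - v) := by
    rw [div_le_iff₀ (by positivity)]
    rw [div_lt_iff₀ hmin] at hk
    nlinarith
  refine hv a e k ha1 he0 ⟨?_, ?_⟩
  · have := hk2.trans (min_le_left _ _); linarith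
  · have := hk2.trans (min_le_right _ _); linarith

end Pool.Agent.K1H53.KP
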