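import Pool.Agent.K1H53.KP.Prob
import Pool.Agent.K1H53.KP.Good

/-!
The fluctuation bound at all large scales.
-/

open MeasureTheory ProbabilityTheory Set Filter

set_option linter.unusedSectionVars false

namespace Pool.Agent.K1H53.KP

open Pool.Agent.K1H53.SD Pool.Agent.K1H53.SF

variable {Ω : Type*} [MeasurableSpace Ω] {P : Measure Ω} [IsProbabilityMeasure P]
variable {ω : ℕ → ℤ → Ω → ℝ}

/-- geometry and mean discrepancy at a fixed scale -/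
lemma geo (he : IsEnv P ω) (hexp : HasExp P ω) (β : ℝ) {s r : ℕ} (hs : 1 ≤ s) (hr : 3 ≤ r) {v : ℝ}
    (hb1 : (r : ℝ) * 16 ≤ s * (1 + v)) (hb2 : (r : ℝ) * 16 ≤ s * (1 - v)) {a : ℝ}
    (hra : (r : ℝ) ≤ (s : ℝ) ^ a) :
    ∃ b l D : ℤ, Gm s v b l D r ∧
      (∀ m : ℤ, b ≤ m → m ≤ b + l → |(m : ℝ) - s * v| ≤ 16 * r ∧ |m| ≤ (s : ℤ)) ∧
      ∫ x, GF (wt β (fld ω x)) s b l D ∂P ≤ 3 * r * gs P ω β a s v := by
  have hsR : (0 : ℝ) < s := by exact_mod_cast hs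
  obtain ⟨b, l, D, g, hD, k1, k2, k3, k4⟩ := gm_of hs hr hb1 hb2
  set k := ⌊(s : ℝ) * (1 + v) / 2⌋ with hk
  have hG := integral_GF_le he hexp β g k1 k2 k3 k4
  have f1 : ⌊(s : ℝ) * (1 + (v - 14 * r / s)) / 2⌋ = k - 7 * r := by
    have : (s : ℝ) * (1 + (v - 14 * r / s)) / 2 = s * (1 + v) / 2 - ((7 * r : ℤ) : ℝ) := by
      push_cast; field_simp; ring
    rw [this, Int.floor_sub_intCast]
  have f2 : ⌊(s : ℝ) * (1 + (v + 14 * r / s)) / 2⌋ = k + 7 * r := by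
    have : (s : ℝ) * (1 + (v + 14 * r / s)) / 2 = s * (1 + v) / 2 + ((7 * r : ℤ) : ℝ) := by
      push_cast; field_simp; ring
    rw [this, Int.floor_add_intCast]
  have hr0 : (0 : ℤ) ≤ r := by positivity
  have g1 := Hf_eq P ω β f1 k1 (by omega)
  have g2 := Hf_eq P ω β f2 (by omega) k4
  have hd0 : 0 ≤ da P ω β s (k - 7 * r) - da P ω β s (k + 7 * r) :=
    sub_nonneg.2 (da_anti he hexp β k1 (by omega) k4)
  have hDr : (D : ℝ) / 2 ≤ 3 * r := by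
    have : (D : ℝ) ≤ 6 * r := by exact_mod_cast hD
    linarith
  have hcc : 14 * (r : ℝ) / s ≤ cs a s := by
    unfold cs
    apply div_le_div_of_nonneg_right _ hsR.le
    linarith
  have hH := Hf_anti he hexp β hs
  refine ⟨b, l, D, g, ?_, ?_⟩
  · intro m hm1 hm2
    have c3 := g.hl0; have c4 := g.hD; have c5 := g.hlD
    have c6 := g.b1; have c7 := g.b2
    have e1 := Int.floor_le ((s : ℝ) * (1 + v) / 2)
    have e2 := Int.lt_floor_add_one ((s : ℝ) * (1 + v) / 2)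
    rw [← hk] at e1 e2
    have hrR : (3 : ℝ) ≤ r := by exact_mod_cast hr
    constructor
    · rw [abs_le]
      constructor
      · have h1 : 2 * (k - 7 * r) - s - 2 ≤ m := by omega
        have h2 : ((2 * (k - 7 * r) - s - 2 : ℤ) : ℝ) ≤ m := by exact_mod_cast h1
        push_cast at h2
        linarith
      · have h1 : m ≤ 2 * (k + 7 * r) - s := by omega
        have h2 : (m : ℝ) ≤ ((2 * (k + 7 * r) - s : ℤ) : ℝ) := by exact_mod_cast h1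
        push_cast at h2
        linarith
    · rw [abs_le]; omega
  · calc ∫ x, GF (wt β (fld ω x)) s b l D ∂P ≤
        (D : ℝ) / 2 * (da P ω β s (k - 7 * r) - da P ω β s (k + 7 * r)) := hG
      _ ≤ 3 * r * (da P ω β s (k - 7 * r) - da P ω β s (k + 7 * r)) :=
          mul_le_mul_of_nonneg_right hDr hd0
      _ = 3 * r * (Hf P ω β s (v - 14 * r / s) - Hf P ω β s (v + 14 * r / s)) := by
          rw [g1, g2]
      _ ≤ 3 * r * gs P ω β a s v := by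
          apply mul_le_mul_of_nonneg_left _ (by positivity)
          unfold gs
          exact sub_le_sub (hH (by linarith)) (hH (by linarith))

lemma rpow_lt_eventually {x y A B : ℝ} (hxy : x < y) (hy : 0 < y) :
    ∀ᶠ s : ℕ in atTop, A * (s : ℝ) ^ x + B ≤ (s : ℝ) ^ y := by
  have h1 : Tendsto (fun s : ℕ => (s : ℝ) ^ (-(y - x))) atTop (nhds 0) :=
    (tendsto_rpow_neg_atTop (by linarith)).comp tendsto_natCast_atTop_atTop
  have h2 : Tendsto (fun s : ℕ => (s : ℝ) ^ (-y)) atTop (nhds 0) :=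
    (tendsto_rpow_neg_atTop hy).comp tendsto_natCast_atTop_atTop
  have h3 : Tendsto (fun s : ℕ => A * (s : ℝ) ^ (-(y - x)) + B * (s : ℝ) ^ (-y)) atTop
      (nhds (A * 0 + B * 0)) := (h1.const_mul A).add (h2.const_mul B)
  rw [mul_zero, mul_zero, add_zero] at h3
  filter_upwards [h3.eventually_le_const (show (0 : ℝ) < 1 by norm_num),
    eventually_ge_atTop 1] with s hs hs1
  have hsR : (0 : ℝ) < s := by exact_mod_cast hs1
  have e1 : (s : ℝ) ^ x = (s : ℝ) ^ (-(y - x)) * (s : ℝ) ^ y := by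
    rw [← Real.rpow_add hsR]; congr 1; ring
  have e2 : (1 : ℝ) = (s : ℝ) ^ (-y) * (s : ℝ) ^ y := by
    rw [← Real.rpow_add hsR]; simp
  calc A * (s : ℝ) ^ x + B = (A * (s : ℝ) ^ (-(y - x)) + B * (s : ℝ) ^ (-y)) * (s : ℝ) ^ y := by
        rw [e1, add_mul, mul_assoc B, ← e2]; ring
    _ ≤ 1 * (s : ℝ) ^ y := mul_le_mul_of_nonneg_right hs (Real.rpow_nonneg hsR.le _)
    _ = _ := one_mul _

/-- the scale of the block -/
noncomputable def sc (σ : ℝ) (n : ℕ) : ℕ := Nat.log 2 ⌊(n : ℝ) ^ σ⌋₊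

lemma sc_tendsto {σ : ℝ} (hσ : 0 < σ) : Tendsto (sc σ) atTop atTop := by
  rw [tendsto_atTop]
  intro J
  have h1 : Tendsto (fun n : ℕ => (n : ℝ) ^ σ) atTop atTop :=
    (tendsto_rpow_atTop hσ).comp tendsto_natCast_atTop_atTop
  filter_upwards [h1.eventually_ge_atTop (((2 ^ J : ℕ) : ℝ))] with n hn
  have h2 : 2 ^ J ≤ ⌊(n : ℝ) ^ σ⌋₊ := Nat.le_floor hn
  unfold sc
  exact Nat.le_log_of_pow_le (by norm_num) h2

lemma sc_bounds {σ : ℝ} {n : ℕ} (hn : 1 ≤ (n : ℝ) ^ σ) :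
    ((2 ^ sc σ n : ℕ) : ℝ) ≤ (n : ℝ) ^ σ ∧ (n : ℝ) ^ σ < 2 * ((2 ^ sc σ n : ℕ) : ℝ) := by
  have h0 : (0 : ℝ) ≤ (n : ℝ) ^ σ := by linarith
  have h1 : 1 ≤ ⌊(n : ℝ) ^ σ⌋₊ := Nat.le_floor (by simpa using hn)
  have h2 : 2 ^ sc σ n ≤ ⌊(n : ℝ) ^ σ⌋₊ := Nat.pow_log_le_self 2 (by omega)
  have h3 : ⌊(n : ℝ) ^ σ⌋₊ < 2 ^ (sc σ n + 1) := Nat.lt_pow_succ_log_self (by norm_num) _
  constructor
  · calc ((2 ^ sc σ n : ℕ) : ℝ) ≤ (⌊(n : ℝ) ^ σ⌋₊ : ℝ) := by exact_mod_cast h2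
      _ ≤ _ := Nat.floor_le h0
  · have h4 : (n : ℝ) ^ σ < (⌊(n : ℝ) ^ σ⌋₊ : ℝ) + 1 := Nat.lt_floor_add_one _
    have h5 : ((⌊(n : ℝ) ^ σ⌋₊ + 1 : ℕ) : ℝ) ≤ ((2 ^ (sc σ n + 1) : ℕ) : ℝ) := by
      exact_mod_cast h3
    push_cast at h5 ⊢
    rw [pow_succ] at h5
    linarith

/-- **the fluctuation bound** -/
theorem main (he : IsEnv P ω) (hexp : HasExp P ω) {β h v : ℝ} (hv : v ∈ Ioo (-1 : ℝ) 1)
    (hgood : ∀ a e : ℚ, (a : ℝ) < 1 → 0 < (e : ℝ) →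
      ∀ᶠ j : ℕ in atTop, gs P ω β a (2 ^ j) v ≤ ((2 ^ j : ℕ) : ℝ) ^ ((a : ℝ) - 1 + e))
    {κ : ℝ} (hκ : 0 < κ)
    (hCF : ∀ δ : ℝ, 0 < δ → ∀ᶠ n : ℕ in atTop,
      1 - δ ≤ qf P ω β h n v (⌈(n : ℝ) ^ κ⌉₊ + 3) (3 / 4))
    {c₂ ρ : ℝ} (hc0 : 0 < c₂) (hc1 : c₂ < 1) (hρ : 0 < ρ) {gf : ℕ → ℤ → ℝ}
    (hPP : ∀ δ : ℝ, 0 < δ → ∀ᶠ s : ℕ in atTop, 1 - δ ≤ P.real {x | ∀ z : ℤ, |z| ≤ (s : ℤ) →
      (z - s) % 2 = 0 → |(z : ℝ) - s * v| ≤ ρ * s →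
        |Real.log (Z (wt β (fld ω x)) 0 s z) - gf s z| ≤ (s : ℝ) ^ c₂})
    {c : ℝ} (hcc : c ≤ c₂) (hc : 2 * κ * c₂ / (1 + c₂) < c) {δ : ℝ} (hδ : 0 < δ) :
    ∀ᶠ n : ℕ in atTop, ∃ m, 1 - δ ≤
      P.real {x | |Real.log (Fr (wt β (fld ω x)) (dr h) n 0) - m| ≤ (n : ℝ) ^ c} := by
  have hcpos : 0 < c := lt_trans (by positivity) hc
  -- the exponents
  have e1 : 2 * κ / (1 + c₂) < c / c₂ := by
    rw [div_lt_div_iff₀ (by linarith) hc0]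
    rw [div_lt_iff₀ (by linarith)] at hc
    linarith
  obtain ⟨σ, hσ1, hσ2⟩ := exists_between e1
  have hσ0 : 0 < σ := lt_trans (by positivity) hσ1
  have hσ3 : σ < 1 := lt_of_lt_of_le hσ2 (by rw [div_le_one hc0]; exact hcc)
  have e2 : κ / σ < (1 + c₂) / 2 := by
    rw [div_lt_div_iff₀ hσ0 (by norm_num)]
    rw [div_lt_iff₀ (by linarith)] at hσ1
    linarith
  obtain ⟨a, ha1, ha2⟩ := exists_rat_btwn e2
  have ha0 : 0 < (a : ℝ) := lt_trans (by positivity) ha1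
  have ha3 : (a : ℝ) < 1 := by linarith
  obtain ⟨e, he1, he2⟩ := exists_rat_btwn (show (0 : ℝ) < 1 + c₂ - 2 * a by linarith)
  set δ' := δ / 15 with hδ'
  have hδ'0 : 0 < δ' := by positivity
  have hvm : 0 < 1 - |v| := by
    have := abs_lt.2 ⟨hv.1, hv.2⟩
    linarith
  -- events in the scale
  have S0 : ∀ᶠ s : ℕ in atTop, 1 ≤ s := eventually_ge_atTop 1
  have S1 : ∀ᶠ s : ℕ in atTop, (2 : ℝ) ^ (κ / σ) * (s : ℝ) ^ (κ / σ) + 4 ≤ (s : ℝ) ^ (a : ℝ) :=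
    rpow_lt_eventually ha1 ha0
  have S2 : ∀ᶠ s : ℕ in atTop, (16 / (1 - |v|)) * (s : ℝ) ^ (a : ℝ) + 0 ≤ (s : ℝ) ^ (1 : ℝ) :=
    rpow_lt_eventually ha3 one_pos
  have S3 : ∀ᶠ s : ℕ in atTop, (3 / δ') * (s : ℝ) ^ (2 * (a : ℝ) - 1 + e) + 0 ≤ (s : ℝ) ^ c₂ :=
    rpow_lt_eventually (by linarith) hc0
  have S4 : ∀ᶠ s : ℕ in atTop, (16 / ρ) * (s : ℝ) ^ (a : ℝ) + 0 ≤ (s : ℝ) ^ (1 : ℝ) :=
    rpow_lt_eventually ha3 one_pos
  have S5 := hPP δ' hδ'0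
  have S6 := hgood a e ha3 he1
  have T : Tendsto (fun n : ℕ => 2 ^ sc σ n) atTop (atTop : Filter ℕ) :=
    two_pow_tendsto.comp (sc_tendsto hσ0)
  obtain ⟨n0, hn0⟩ := eventually_atTop.1 (hCF δ' hδ'0)
  have N1 : ∀ᶠ n : ℕ in atTop, 1 ≤ (n : ℝ) ^ σ :=
    ((tendsto_rpow_atTop hσ0).comp tendsto_natCast_atTop_atTop).eventually_ge_atTop 1
  have N2 : ∀ᶠ n : ℕ in atTop, 2 * (n : ℝ) ^ σ + 0 ≤ (n : ℝ) ^ (1 : ℝ) :=
    rpow_lt_eventually hσ3 one_pos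
  have N3 : ∀ᶠ n : ℕ in atTop, 3 * (n : ℝ) ^ (σ * c₂) + 4 ≤ (n : ℝ) ^ c := by
    apply rpow_lt_eventually _ hcpos
    rwa [lt_div_iff₀ hc0] at hσ2
  filter_upwards [T.eventually S0, T.eventually S1, T.eventually S2, T.eventually S3,
    T.eventually S4, T.eventually S5, (sc_tendsto hσ0).eventually S6, N1, N2, N3,
    eventually_ge_atTop (2 * n0), eventually_ge_atTop 1] with n t0 t1 t2 t3 t4 t5 t6 u1 u2 u3 u4 u5
  set s := 2 ^ sc σ n with hs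
  have hsR : (0 : ℝ) < s := by exact_mod_cast t0
  have hnR : (0 : ℝ) < n := by exact_mod_cast u5
  obtain ⟨b1, b2⟩ := sc_bounds u1
  rw [← hs] at b1 b2
  have hsn2 : 2 * (s : ℝ) ≤ n := by
    rw [Real.rpow_one] at u2
    linarith
  have hsn : 2 * s ≤ n := by exact_mod_cast hsn2
  obtain ⟨k, hk⟩ : ∃ k, n = s + k := ⟨n - s, by omega⟩
  have hk2 : n0 ≤ k := by omega
  set r := ⌈(n : ℝ) ^ κ⌉₊ + 3 with hr
  have hr3 : 3 ≤ r := by omega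
  have hra : (r : ℝ) ≤ (s : ℝ) ^ (a : ℝ) := by
    have h1 : (n : ℝ) ^ κ = ((n : ℝ) ^ σ) ^ (κ / σ) := by
      rw [← Real.rpow_mul hnR.le]
      congr 1
      field_simp
    have h2 : (n : ℝ) ^ κ ≤ (2 : ℝ) ^ (κ / σ) * (s : ℝ) ^ (κ / σ) := by
      rw [h1, ← Real.mul_rpow (by norm_num) hsR.le]
      exact Real.rpow_le_rpow (by linarith) b2.le (by positivity)
    have h3 : ((⌈(n : ℝ) ^ κ⌉₊ : ℕ) : ℝ) < (n : ℝ) ^ κ + 1 :=
      Nat.ceil_lt_add_one (Real.rpow_nonneg hnR.le _)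
    rw [hr]
    push_cast
    linarith
  rw [add_zero, Real.rpow_one, div_mul_eq_mul_div, div_le_iff₀ hvm] at t2
  rw [add_zero, Real.rpow_one, div_mul_eq_mul_div, div_le_iff₀ hρ] at t4
  rw [add_zero] at t3
  have hb1 : (r : ℝ) * 16 ≤ s * (1 + v) := by
    have : (s : ℝ) * (1 - |v|) ≤ s * (1 + v) :=
      mul_le_mul_of_nonneg_left (by linarith [neg_abs_le v]) hsR.le
    linarith
  have hb2 : (r : ℝ) * 16 ≤ s * (1 - v) := by
    have : (s : ℝ) * (1 - |v|) ≤ s * (1 - v) :=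
      mul_le_mul_of_nonneg_left (by linarith [le_abs_self v]) hsR.le
    linarith
  obtain ⟨b, l, D, g, hJ, hGF⟩ := geo he hexp β t0 hr3 hb1 hb2 hra
  have q1 : 1 - δ' ≤ qf P ω β h (s + k) v r (3 / 4) := by
    have := hn0 n (by omega)
    rw [← hk]
    exact this
  have q3 : 1 - δ' ≤ qf P ω β h k v r (3 / 4) := by
    refine (hn0 k hk2).trans (qf_mono β h k v ?_ _)
    rw [hr]
    apply Nat.add_le_add_right
    apply Nat.ceil_le_ceil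
    apply Real.rpow_le_rpow (Nat.cast_nonneg k) _ hκ.le
    have : k ≤ n := by omega
    exact_mod_cast this
  have ht0 : (0 : ℝ) < (s : ℝ) ^ c₂ := Real.rpow_pos_of_pos hsR _
  have q4 : (∫ x, GF (wt β (fld ω x)) s b l D ∂P) / (s : ℝ) ^ c₂ ≤ δ' := by
    rw [div_le_iff₀ ht0]
    have h1 : 3 * (r : ℝ) * gs P ω β a s v ≤
        3 * (s : ℝ) ^ (a : ℝ) * (s : ℝ) ^ ((a : ℝ) - 1 + e) := by
      have h2 : 3 * (r : ℝ) * gs P ω β a s v ≤ 3 * (r : ℝ) * (s : ℝ) ^ ((a : ℝ) - 1 + e) :=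
        mul_le_mul_of_nonneg_left t6 (by positivity)
      refine h2.trans (mul_le_mul_of_nonneg_right (by linarith) (Real.rpow_nonneg hsR.le _))
    have h3 : 3 * (s : ℝ) ^ (a : ℝ) * (s : ℝ) ^ ((a : ℝ) - 1 + e) =
        3 * (s : ℝ) ^ (2 * (a : ℝ) - 1 + e) := by
      rw [mul_assoc, ← Real.rpow_add hsR]
      congr 2
      ring
    rw [div_mul_eq_mul_div, div_le_iff₀ hδ'0] at t3
    linarith
  have q5 : 1 - δ' ≤ P.real {x | ∀ m, b ≤ m → m ≤ b + l → (m - s) % 2 = 0 →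
      |Real.log (Z (wt β (fld ω x)) 0 s m) - gf s m| ≤ (s : ℝ) ^ c₂} := by
    refine t5.trans (measureReal_mono ?_ (measure_ne_top _ _))
    intro x hx m hm1 hm2 hm3
    have hJm := hJ m hm1 hm2
    refine hx m hJm.2 hm3 ?_
    linarith [hJm.1]
  obtain ⟨m, hm⟩ := fixed he hexp β h g (gf s) (q := 3 / 4) (t := (s : ℝ) ^ c₂)
    (lam := (s : ℝ) ^ c₂) (δ := δ') (by norm_num) (by norm_num) ht0 hδ'0.le q1 q3 q4 q5
  refine ⟨m, ?_⟩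
  have e15 : 1 - δ = 1 - 15 * δ' := by rw [hδ']; ring
  rw [e15]
  refine hm.trans (measureReal_mono ?_ (measure_ne_top _ _))
  intro x hx
  have hx' : |Real.log (Fr (wt β (fld ω x)) (dr h) (s + k) 0) - m| ≤
      2 * (s : ℝ) ^ c₂ + (s : ℝ) ^ c₂ + 4 := hx
  rw [← hk] at hx'
  refine le_trans hx' ?_
  have h5 : (s : ℝ) ^ c₂ ≤ (n : ℝ) ^ (σ * c₂) := by
    rw [Real.rpow_mul hnR.le]
    exact Real.rpow_le_rpow hsR.le b1 hc0.le
  linarith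

end Pool.Agent.K1H53.KP
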