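import Pool.Agent.K1H53.KP.Defs
import Pool.Agent.K1H53.KP.Main
import Pool.Agent.K1H53.SF.FLink
import Pool.Agent.K1H53.CN.Conc

/-!
Consequences of the definitions of the exponents.
-/

open MeasureTheory ProbabilityTheory Set Filter

set_option linter.unusedSectionVars false

namespace Pool.Agent.K1H53.KP

open Pool.Agent.K1H53.SD Pool.Agent.K1H53.SF

lemma frEnergy_eq (β h : ℝ) (η : ℕ → ℤ → ℝ) (n : ℕ) :
    frEnergy β h η n = Real.log (Fr (wt β η) (dr h) n 0) := by
  unfold frEnergy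
  rw [Fr_sum]

lemma ppEnergy_eq (β : ℝ) (η : ℕ → ℤ → ℝ) (n : ℕ) (z : ℤ) :
    ppEnergy β η n z = Real.log (Z (wt β η) 0 n z) := by
  unfold ppEnergy
  rw [den_eq]

variable {Ω : Type*} [MeasurableSpace Ω] {P : Measure Ω} [IsProbabilityMeasure P]
variable {ω : ℕ → ℤ → Ω → ℝ}

lemma exp_nonneg (β h v : ℝ) : 0 ≤ wanderingExpF P ω β h v :=
  Real.sInf_nonneg (fun _ ha => ha.1.le)

/-- the set defining the wandering exponent is not empty -/
lemma exp_set_nonempty {β h v : ℝ} (h1 : -1 ≤ v) (h2 : v ≤ 1) :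
    (2 : ℝ) ∈ {a : ℝ | 0 < a ∧ ∫⁻ x, liminf (fun n : ℕ => ENNReal.ofReal (frProb β h
    (fun i y => ω i y x) (tube n v ((n : ℝ) ^ a)))) atTop ∂P = 1} := by
  refine ⟨by norm_num, ?_⟩
  have : ∀ x, liminf (fun n : ℕ => ENNReal.ofReal (frProb β h
      (fun i y => ω i y x) (tube n v ((n : ℝ) ^ (2 : ℝ))))) atTop = 1 := by
    intro x
    apply Tendsto.liminf_eq
    apply tendsto_const_nhds.congr'
    filter_upwards [eventually_ge_atTop 2] with n hn
    have hall : tube n v ((n : ℝ) ^ (2 : ℝ)) = Set.univ := by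
      rw [Set.eq_univ_iff_forall]
      intro w i hi
      have hp := abs_pos_le w i
      have hp2 : |(pos w i : ℝ)| ≤ n := by exact_mod_cast hp
      have hn2 : (2 : ℝ) ≤ n := by exact_mod_cast hn
      have hin : (i : ℝ) ≤ n := by exact_mod_cast hi
      have hv : |v| ≤ 1 := abs_le.2 ⟨h1, h2⟩
      rw [Real.rpow_two]
      calc |(pos w i : ℝ) - i * v| ≤ |(pos w i : ℝ)| + |i * v| := abs_sub _ _
        _ = |(pos w i : ℝ)| + i * |v| := by rw [abs_mul, Nat.abs_cast]
        _ ≤ n + n * 1 := add_le_add hp2 (mul_le_mul hin hv (abs_nonneg _) (by positivity))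
        _ ≤ (n : ℝ) ^ 2 := by nlinarith
    unfold frProb
    rw [hall]
    simp only [Set.indicator_univ]
    rw [div_self (den_posF β h _ n).ne', ENNReal.ofReal_one]
  simp only [this]
  simp

/-- confinement in probability above the wandering exponent -/
lemma conf_of_exp (he : IsEnv P ω) {β h v κ : ℝ} (h1 : -1 ≤ v) (h2 : v ≤ 1)
    (hκ : wanderingExpF P ω β h v < κ) {q : ℝ} (hq : q < 1) {δ : ℝ} (hδ : 0 < δ) :
    ∀ᶠ n : ℕ in atTop, 1 - δ ≤ qf P ω β h n v (⌈(n : ℝ) ^ κ⌉₊ + 3) q := by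
  obtain ⟨a, ⟨ha0, ha⟩, haκ⟩ := exists_lt_of_csInf_lt ⟨2, exp_set_nonempty h1 h2⟩ hκ
  set p : ℕ → Ω → ℝ := fun n x => frProb β h (fun i y => ω i y x) (tube n v ((n : ℝ) ^ a)) with hp
  have mp : ∀ n, Measurable (p n) := fun n => measurable_frProb he β h n _
  have hp1 : ∀ n x, p n x ≤ 1 := fun n x => frProb_le_one β h _ n _
  set L : Ω → ENNReal := fun x => liminf (fun n : ℕ => ENNReal.ofReal (p n x)) atTop with hL
  have hL1 : ∀ x, L x ≤ 1 := by
    intro x
    have h9 : L x ≤ liminf (fun _ : ℕ => (1 : ENNReal)) atTop :=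
      liminf_le_liminf (Eventually.of_forall fun n => ENNReal.ofReal_le_one.2 (hp1 n x))
    rwa [liminf_const] at h9
  have hLae : L =ᵐ[P] fun _ => 1 := by
    have h3 : ∫⁻ x, (1 : ENNReal) ∂P ≤ ∫⁻ x, L x ∂P := by
      have : ∫⁻ x, L x ∂P = 1 := ha
      rw [this]
      simp
    have h4 := ae_eq_of_ae_le_of_lintegral_le (μ := P) (f := L) (g := fun _ => 1)
      (Eventually.of_forall hL1) (by
        have : ∫⁻ x, L x ∂P = 1 := ha
        rw [this]; exact ENNReal.one_ne_top) measurable_const.aemeasurable h3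
    exact h4
  -- the indicator functions
  set A : ℕ → Set Ω := fun n => {x | q ≤ p n x} with hA
  have mA : ∀ n, MeasurableSet (A n) := fun n => measurableSet_le measurable_const (mp n)
  have hfat : ∫⁻ x, liminf (fun n => (A n).indicator (fun _ => (1 : ENNReal)) x) atTop ∂P ≤
      liminf (fun n => ∫⁻ x, (A n).indicator (fun _ => (1 : ENNReal)) x ∂P) atTop :=
    lintegral_liminf_le (fun n => measurable_const.indicator (mA n))
  have hone : ∀ᵐ x ∂P, (1 : ENNReal) ≤
      liminf (fun n => (A n).indicator (fun _ => (1 : ENNReal)) x) atTop := by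
    filter_upwards [hLae] with x hx
    have hq1 : ENNReal.ofReal q < L x := by
      rw [hx]
      exact ENNReal.ofReal_lt_one.2 hq
    have hev := eventually_lt_of_lt_liminf hq1
    apply le_liminf_of_le
    · isBoundedDefault
    · filter_upwards [hev] with n hn
      have : q ≤ p n x := by
        by_contra hcon
        push Not at hcon
        exact absurd hn (not_lt.2 (ENNReal.ofReal_le_ofReal hcon.le))
      rw [indicator_of_mem (show x ∈ A n from this)]
  have h5 : (1 : ENNReal) ≤ liminf (fun n => P (A n)) atTop := by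
    calc (1 : ENNReal) = ∫⁻ x, 1 ∂P := by simp
      _ ≤ ∫⁻ x, liminf (fun n => (A n).indicator (fun _ => (1 : ENNReal)) x) atTop ∂P :=
          lintegral_mono_ae hone
      _ ≤ liminf (fun n => ∫⁻ x, (A n).indicator (fun _ => (1 : ENNReal)) x ∂P) atTop := hfat
      _ = liminf (fun n => P (A n)) atTop := by
          congr 1
          ext n
          rw [lintegral_indicator (mA n)]
          simp
  have h6 : ENNReal.ofReal (1 - δ) < liminf (fun n => P (A n)) atTop :=
    lt_of_lt_of_le (ENNReal.ofReal_lt_one.2 (by linarith)) h5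
  filter_upwards [eventually_lt_of_lt_liminf h6, eventually_ge_atTop 1] with n hn hn1
  have h7 : 1 - δ ≤ P.real (A n) := by
    rw [measureReal_def]
    exact (ENNReal.ofReal_le_iff_le_toReal (measure_ne_top _ _)).1 hn.le
  refine h7.trans ?_
  unfold qf
  apply measureReal_mono _ (measure_ne_top _ _)
  intro x hx
  refine CF_of_prob (R := (n : ℝ) ^ a) ?_ hx
  have h8 : (n : ℝ) ^ a ≤ (n : ℝ) ^ κ :=
    Real.rpow_le_rpow_of_exponent_le (by exact_mod_cast hn1) haκ.le
  have h9 := Nat.le_ceil ((n : ℝ) ^ κ)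
  push_cast
  linarith

end Pool.Agent.K1H53.KP
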