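import Pool.Agent.K1H53.SF.FDefs

/-!
Free energies and their fluctuation exponents.
-/

open MeasureTheory Filter

namespace Pool.Agent.K1H53.KP

open Pool.Agent.K1H53.SD Pool.Agent.K1H53.SF

/-- The free energy `log ∑_w exp(h S_n + β ∑_{i≤n} η(i, S_i))` of the free polymer with drift `h`,
the sum being over all walks `w` of `n` steps from `0`. -/
noncomputable def frEnergy (β h : ℝ) (η : ℕ → ℤ → ℝ) (n : ℕ) : ℝ :=
  Real.log (∑ w : Fin n → Bool, Real.exp (h * pos w n + β * energy η w))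

/-- The point-to-point free energy `log ∑_{w : S_n = z} exp(β ∑_{i≤n} η(i, S_i))`. -/
noncomputable def ppEnergy (β : ℝ) (η : ℕ → ℤ → ℝ) (n : ℕ) (z : ℤ) : ℝ :=
  Real.log (∑ w : Fin n → Bool,
    {w : Fin n → Bool | pos w n = z}.indicator (fun w => Real.exp (β * energy η w)) w)

/-- The exponents `c > 0` with: for every `δ > 0` and all large `n` there is a constant `m` with
`ℙ(|F_n - m| ≤ n^c) ≥ 1 - δ`, `F_n` the free energy of the free polymer with drift `h`. -/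
def TypSet {Ω : Type*} [MeasurableSpace Ω] (P : Measure Ω) (ω : ℕ → ℤ → Ω → ℝ) (β h : ℝ) : Set ℝ :=
  {c : ℝ | 0 < c ∧ ∀ δ : ℝ, 0 < δ → ∀ᶠ n : ℕ in atTop, ∃ m : ℝ,
    1 - δ ≤ P.real {x | |frEnergy β h (fun i y => ω i y x) n - m| ≤ (n : ℝ) ^ c}}

/-- The typical fluctuation exponent of the free polymer with drift `h`. -/
noncomputable def chiTyp {Ω : Type*} [MeasurableSpace Ω] (P : Measure Ω) (ω : ℕ → ℤ → Ω → ℝ)
    (β h : ℝ) : ℝ := sInf (TypSet P ω β h)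

/-- The exponents `c > 0` with: for some `ρ > 0` and constants `g n z`, in probability
`|log Z_n(0 → z) - g n z| ≤ n^c` for all endpoints `z` with `|z - n v| ≤ ρ n`. -/
def DirSet {Ω : Type*} [MeasurableSpace Ω] (P : Measure Ω) (ω : ℕ → ℤ → Ω → ℝ) (β v : ℝ) : Set ℝ :=
  {c : ℝ | 0 < c ∧ ∃ ρ : ℝ, 0 < ρ ∧ ∃ g : ℕ → ℤ → ℝ, ∀ δ : ℝ, 0 < δ → ∀ᶠ n : ℕ in atTop,
    1 - δ ≤ P.real {x | ∀ z : ℤ, |z| ≤ (n : ℤ) → (z - n) % 2 = 0 → |(z : ℝ) - n * v| ≤ ρ * n →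
      |ppEnergy β (fun i y => ω i y x) n z - g n z| ≤ (n : ℝ) ^ c}}

/-- The fluctuation exponent of the point-to-point polymers near the direction `v`. -/
noncomputable def chiDir {Ω : Type*} [MeasurableSpace Ω] (P : Measure Ω) (ω : ℕ → ℤ → Ω → ℝ)
    (β v : ℝ) : ℝ := sInf (DirSet P ω β v)

end Pool.Agent.K1H53.KP
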