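import Pool.Agent.K1H53.KP.Conf

/-!
The fluctuations of the point-to-point free energies are at most of order `n^(1/2)`.
-/

open MeasureTheory ProbabilityTheory Set Filter

set_option linter.unusedSectionVars false

namespace Pool.Agent.K1H53.KP

open Pool.Agent.K1H53.SD Pool.Agent.K1H53.SF Pool.Agent.K1H53.CN

variable {Ω : Type*} [MeasurableSpace Ω] {P : Measure Ω} [IsProbabilityMeasure P]
variable {ω : ℕ → ℤ → Ω → ℝ}

lemma ppEnergy_LZ (β : ℝ) (n : ℕ) (z : ℤ) (x : Ω) :
    ppEnergy β (fun i y => ω i y x) n z = LZ ω β (fun _ : {w : Fin n → Bool // pos w n = z} => 1) n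
      (fun w i => pos w.1 (i + 1)) x := by
  unfold ppEnergy LZ
  congr 1
  have h1 : (∑ w : Fin n → Bool, {w : Fin n → Bool | pos w n = z}.indicator
      (fun w => Real.exp (β * energy (fun i y => ω i y x) w)) w) =
      ∑ w ∈ Finset.univ.filter (fun w : Fin n → Bool => pos w n = z),
        Real.exp (β * energy (fun i y => ω i y x) w) := by
    rw [Finset.sum_filter]
    apply Finset.sum_congr rfl
    intro w _
    rw [Set.indicator_apply]
    rfl
  rw [h1]
  rw [Finset.sum_subtype (p := fun w : Fin n → Bool => pos w n = z) _ (by intro w; simp)]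
  apply Finset.sum_congr rfl
  intro w _
  rw [one_mul]
  congr 2
  unfold energy
  rw [Finset.sum_range]

/-- concentration of the point-to-point free energies -/
lemma pp_conc (he : IsEnv P ω) (hexp : HasExp P ω) (β : ℝ) {n : ℕ} {z : ℤ} (h1 : |z| ≤ (n : ℤ))
    (h2 : (z - n) % 2 = 0) {t lam : ℝ} (ht0 : 0 < t) (ht : t ≤ 1 / 2) :
    P.real {x | lam ≤ |ppEnergy β (fun i y => ω i y x) n z -
      ∫ x', ppEnergy β (fun i y => ω i y x') n z ∂P|} ≤
      2 * Real.exp (-(t * lam) + n * (CC (P.map (ω 1 0)) β * t ^ 2)) := by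
  have hprob : IsProbabilityMeasure (P.map (ω 1 0)) :=
    Measure.isProbabilityMeasure_map (he.meas 1 0).aemeasurable
  obtain ⟨w0, hw0⟩ := exists_path (x0 := 0) (z := z) (n := n) (by simpa using h1) (by simpa using h2)
  have hne : Nonempty {w : Fin n → Bool // pos w n = z} := ⟨⟨w0, by simpa using hw0⟩⟩
  have hexp' : ∀ b : ℝ, Integrable (fun t => Real.exp (b * t)) (P.map (ω 1 0)) := by
    intro b
    have hm : AEStronglyMeasurable (fun t : ℝ => Real.exp (b * t)) (P.map (ω 1 0)) :=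
      (Real.measurable_exp.comp (measurable_id.const_mul b)).aestronglyMeasurable
    rw [integrable_map_measure hm (he.meas 1 0).aemeasurable]
    exact hexp b
  have hl : ∀ i x, P.map (ω i x) = P.map (ω 1 0) := fun i x => (he.ident i x).map_eq
  have := LZ_conc (μ := P.map (ω 1 0)) (P := P) (ω := ω) he.meas he.indep hl hexp' (β := β)
    (c := fun _ : {w : Fin n → Bool // pos w n = z} => (1 : ℝ)) (fun _ => one_pos) n
    (fun w i => pos w.1 (i + 1)) (t := t) (lam := lam) ht0 ht
  simp_rw [ppEnergy_LZ]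
  exact this

lemma exp_decay {b γ : ℝ} (hb : 0 < b) (hγ : 0 < γ) :
    Tendsto (fun n : ℕ => (n : ℝ) * Real.exp (-b * (n : ℝ) ^ γ)) atTop (nhds 0) := by
  have h1 := tendsto_rpow_mul_exp_neg_mul_atTop_nhds_zero (1 / γ) b hb
  have h2 : Tendsto (fun n : ℕ => (n : ℝ) ^ γ) atTop atTop :=
    (tendsto_rpow_atTop hγ).comp tendsto_natCast_atTop_atTop
  have h3 := h1.comp h2
  refine h3.congr' ?_
  filter_upwards [eventually_ge_atTop 1] with n hn
  have hn0 : (0 : ℝ) ≤ n := Nat.cast_nonneg n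
  simp only [Function.comp]
  rw [← Real.rpow_mul hn0]
  have : γ * (1 / γ) = 1 := by field_simp
  rw [this, Real.rpow_one]

/-- the exponents above `1/2` are exponents of the point-to-point fluctuations -/
theorem half (he : IsEnv P ω) (hexp : HasExp P ω) (β v : ℝ) {c : ℝ} (hc : 1 / 2 < c) :
    c ∈ DirSet P ω β v := by
  refine ⟨by linarith, 1, one_pos, fun n z => ∫ x, ppEnergy β (fun i y => ω i y x) n z ∂P, ?_⟩
  intro δ hδ
  set C := CC (P.map (ω 1 0)) β with hC
  have hC0 : 0 ≤ C := CC_nonneg _ _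
  set c' := min c 1 with hc'
  have hc1 : 1 / 2 < c' := lt_min hc (by norm_num)
  have hc2 : c' ≤ 1 := min_le_right _ _
  have hc3 : c' ≤ c := min_le_left _ _
  set b := 1 / (4 * (C + 1)) with hb
  have hb0 : 0 < b := by positivity
  have hdec := (exp_decay hb0 (show 0 < 2 * c' - 1 by linarith)).const_mul 8
  rw [mul_zero] at hdec
  filter_upwards [hdec.eventually_le_const hδ, eventually_ge_atTop 1] with n t1 t2
  have hnR : (1 : ℝ) ≤ n := by exact_mod_cast t2
  have hn0 : (0 : ℝ) < n := by linarith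
  -- a single endpoint
  have hz : ∀ z : ℤ, |z| ≤ (n : ℤ) → (z - n) % 2 = 0 →
      P.real {x | (n : ℝ) ^ c < |ppEnergy β (fun i y => ω i y x) n z -
        ∫ x', ppEnergy β (fun i y => ω i y x') n z ∂P|} ≤
          2 * Real.exp (-b * (n : ℝ) ^ (2 * c' - 1)) := by
    intro z h1 h2
    set t := (n : ℝ) ^ (c' - 1) / (2 * (C + 1)) with ht
    have hpow : (n : ℝ) ^ (c' - 1) ≤ 1 := Real.rpow_le_one_of_one_le_of_nonpos hnR (by linarith)
    have hpow0 : 0 < (n : ℝ) ^ (c' - 1) := Real.rpow_pos_of_pos hn0 _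
    have ht0 : 0 < t := by positivity
    have ht1 : t ≤ 1 / 2 := by
      rw [ht, div_le_iff₀ (by positivity)]
      linarith
    have hcc := pp_conc he hexp β h1 h2 (t := t) (lam := (n : ℝ) ^ c') ht0 ht1
    rw [← hC] at hcc
    have e1 : t * (n : ℝ) ^ c' = (n : ℝ) ^ (2 * c' - 1) / (2 * (C + 1)) := by
      rw [ht, div_mul_eq_mul_div, ← Real.rpow_add hn0]
      congr 2
      ring
    have e2 : (n : ℝ) * (C * t ^ 2) = C * (n : ℝ) ^ (2 * c' - 1) / (4 * (C + 1) ^ 2) := by
      rw [ht, div_pow, ← Real.rpow_natCast ((n : ℝ) ^ (c' - 1)) 2, ← Real.rpow_mul hn0.le]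
      have e3 : (n : ℝ) ^ (2 * c' - 1) = n * (n : ℝ) ^ ((c' - 1) * ((2 : ℕ) : ℝ)) := by
        nth_rewrite 2 [← Real.rpow_one (n : ℝ)]
        rw [← Real.rpow_add hn0]
        congr 1
        push_cast
        ring
      rw [e3]
      ring
    have hpos : 0 < (n : ℝ) ^ (2 * c' - 1) := Real.rpow_pos_of_pos hn0 _
    have e4 : -(t * (n : ℝ) ^ c') + n * (C * t ^ 2) ≤ -b * (n : ℝ) ^ (2 * c' - 1) := by
      rw [e1, e2, hb]
      have h5 : C * (n : ℝ) ^ (2 * c' - 1) / (4 * (C + 1) ^ 2) ≤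
          (n : ℝ) ^ (2 * c' - 1) / (4 * (C + 1)) := by
        rw [div_le_div_iff₀ (by positivity) (by positivity)]
        have : C * (C + 1) ≤ (C + 1) ^ 2 := by nlinarith
        nlinarith
      have h6 : (n : ℝ) ^ (2 * c' - 1) / (2 * (C + 1)) =
          (n : ℝ) ^ (2 * c' - 1) / (4 * (C + 1)) + (n : ℝ) ^ (2 * c' - 1) / (4 * (C + 1)) := by
        field_simp
        ring
      have h7 : -(1 / (4 * (C + 1))) * (n : ℝ) ^ (2 * c' - 1) =
          -((n : ℝ) ^ (2 * c' - 1) / (4 * (C + 1))) := by ring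
      rw [h6, h7]
      linarith
    refine le_trans (measureReal_mono ?_ (measure_ne_top _ _)) (hcc.trans ?_)
    · intro x hx
      simp only [mem_ofPred_eq] at hx ⊢
      exact (Real.rpow_le_rpow_of_exponent_le hnR hc3).trans hx.le
    · have := Real.exp_le_exp.2 e4
      linarith
  -- union bound
  set S : Finset ℤ := (Finset.Icc (-(n : ℤ)) (n : ℤ)).filter (fun z : ℤ => (z - n) % 2 = 0) with hS
  set B : ℤ → Set Ω := fun z => {x | (n : ℝ) ^ c < |ppEnergy β (fun i y => ω i y x) n z -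
        ∫ x', ppEnergy β (fun i y => ω i y x') n z ∂P|} with hBd
  have hun : P.real (⋃ z ∈ S, B z) ≤ δ := by
    calc P.real (⋃ z ∈ S, B z) ≤ ∑ z ∈ S, P.real (B z) := measureReal_biUnion_finset_le _ _
      _ ≤ ∑ z ∈ S, 2 * Real.exp (-b * (n : ℝ) ^ (2 * c' - 1)) := by
          apply Finset.sum_le_sum
          intro z hzS
          rw [hS, Finset.mem_filter, Finset.mem_Icc] at hzS
          exact hz z (abs_le.2 hzS.1) hzS.2
      _ = (S.card : ℝ) * (2 * Real.exp (-b * (n : ℝ) ^ (2 * c' - 1))) := by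
          rw [Finset.sum_const, nsmul_eq_mul]
      _ ≤ (4 * n) * (2 * Real.exp (-b * (n : ℝ) ^ (2 * c' - 1))) := by
          apply mul_le_mul_of_nonneg_right _ (by positivity)
          have h8 : S.card ≤ 2 * n + 1 := by
            refine (Finset.card_filter_le _ _).trans ?_
            rw [Int.card_Icc]
            omega
          have h9 : (S.card : ℝ) ≤ 2 * n + 1 := by exact_mod_cast h8
          linarith
      _ = 8 * (n * Real.exp (-b * (n : ℝ) ^ (2 * c' - 1))) := by ring
      _ ≤ δ := t1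
  have hcov : (univ : Set Ω) ⊆ {x | ∀ z : ℤ, |z| ≤ (n : ℤ) → (z - n) % 2 = 0 →
      |(z : ℝ) - n * v| ≤ 1 * n → |ppEnergy β (fun i y => ω i y x) n z -
        ∫ x', ppEnergy β (fun i y => ω i y x') n z ∂P| ≤ (n : ℝ) ^ c} ∪ ⋃ z ∈ S, B z := by
    intro x _
    by_cases hx : ∀ z ∈ S, x ∉ B z
    · left
      intro z h1 h2 _
      have := hx z (by rw [hS, Finset.mem_filter, Finset.mem_Icc]; exact ⟨abs_le.1 h1, h2⟩)
      simpa [hBd] using this
    · right
      push Not at hx
      obtain ⟨z, hz1, hz2⟩ := hx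
      exact mem_biUnion hz1 hz2
  have h10 : (1 : ℝ) = P.real univ := (probReal_univ (μ := P)).symm
  have h11 := (measureReal_mono (μ := P) hcov (measure_ne_top _ _)).trans
    (measureReal_union_le _ _)
  rw [← h10] at h11
  linarith

end Pool.Agent.K1H53.KP
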