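import Pool.Agent.K1H53.KP.Lower
import Pool.Agent.K1H53.KP.Half

/-!
Relations between the exponents in almost every direction.
-/

open MeasureTheory ProbabilityTheory Set Filter

set_option linter.unusedSectionVars false

namespace Pool.Agent.K1H53.KP

open Pool.Agent.K1H53.SD Pool.Agent.K1H53.SF

variable {Ω : Type*} [MeasurableSpace Ω] {P : Measure Ω} [IsProbabilityMeasure P]
variable {ω : ℕ → ℤ → Ω → ℝ}

lemma bddTyp (β h : ℝ) : BddBelow (TypSet P ω β h) := ⟨0, fun _ hc => hc.1.le⟩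

lemma bddDir (β v : ℝ) : BddBelow (DirSet P ω β v) := ⟨0, fun _ hc => hc.1.le⟩

lemma dir_nonempty (he : IsEnv P ω) (hexp : HasExp P ω) (β v : ℝ) : (DirSet P ω β v).Nonempty :=
  ⟨1, half he hexp β v (by norm_num)⟩

lemma chiDir_nonneg (β v : ℝ) : 0 ≤ chiDir P ω β v := Real.sInf_nonneg (fun _ hc => hc.1.le)

lemma chiTyp_nonneg (β h : ℝ) : 0 ≤ chiTyp P ω β h := Real.sInf_nonneg (fun _ hc => hc.1.le)

lemma chiDir_le_half (he : IsEnv P ω) (hexp : HasExp P ω) (β v : ℝ) :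
    chiDir P ω β v ≤ 1 / 2 := by
  apply le_of_forall_gt_imp_ge_of_dense
  intro c hc
  exact csInf_le (bddDir β v) (half he hexp β v hc)

lemma typ_nonempty (he : IsEnv P ω) (hexp : HasExp P ω) {β h v : ℝ} (hv : v ∈ Ioo (-1 : ℝ) 1)
    (hν : wanderingExpF P ω β h v < 1) : (TypSet P ω β h).Nonempty :=
  ⟨2, typ_le_dir he hv hν (half he hexp β v (c := 1) (by norm_num)) (by norm_num)⟩

lemma chiTyp_le (he : IsEnv P ω) (hexp : HasExp P ω) {β h v : ℝ}
    (hv : v ∈ Ioo (-1 : ℝ) 1) (hν : wanderingExpF P ω β h v < 1) :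
    chiTyp P ω β h ≤ chiDir P ω β v := by
  apply le_csInf (dir_nonempty he hexp β v)
  intro c₂ hc₂
  apply le_of_forall_gt_imp_ge_of_dense
  intro c hc
  exact csInf_le (bddTyp β h) (typ_le_dir he hv hν hc₂ hc)

lemma le_chiTyp (he : IsEnv P ω) (hexp : HasExp P ω) (hnc : ¬ ∃ c : ℝ, ∀ᵐ a ∂P, ω 1 0 a = c)
    {β : ℝ} (hβ : 0 < β) {h v : ℝ} (hv : v ∈ Ioo (-1 : ℝ) 1)
    (hν : wanderingExpF P ω β h v < 1) :
    (1 - wanderingExpF P ω β h v) / 2 ≤ chiTyp P ω β h :=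
  le_csInf (typ_nonempty he hexp hv hν) (fun _ hc => lower he hexp hnc hβ hv.1.le hv.2.le hc)

/-- exponents above the bound are typical exponents -/
lemma main_exp (he : IsEnv P ω) (hexp : HasExp P ω) {β h v : ℝ} (hv : v ∈ Ioo (-1 : ℝ) 1)
    (hgood : ∀ a e : ℚ, (a : ℝ) < 1 → 0 < (e : ℝ) →
      ∀ᶠ j : ℕ in atTop, gs P ω β a (2 ^ j) v ≤ ((2 ^ j : ℕ) : ℝ) ^ ((a : ℝ) - 1 + e))
    {c₂ : ℝ} (hc₂ : c₂ ∈ DirSet P ω β v) (hc1 : c₂ < 1) {c : ℝ} (hcc : c ≤ c₂)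
    (hc : 2 * wanderingExpF P ω β h v * c₂ / (1 + c₂) < c) : c ∈ TypSet P ω β h := by
  obtain ⟨h0, ρ, hρ, g, hg⟩ := hc₂
  have hν0 := exp_nonneg (P := P) (ω := ω) β h v
  have hc0 : 0 < c := lt_of_le_of_lt (by positivity) hc
  refine ⟨hc0, ?_⟩
  intro δ hδ
  -- choice of the radius
  have e1 : wanderingExpF P ω β h v < c * (1 + c₂) / (2 * c₂) := by
    rw [lt_div_iff₀ (by linarith)]
    rw [div_lt_iff₀ (by linarith)] at hc
    linarith
  obtain ⟨κ, hκ1, hκ2⟩ := exists_between e1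
  have hκ0 : 0 < κ := by linarith
  have e2 : 2 * κ * c₂ / (1 + c₂) < c := by
    rw [div_lt_iff₀ (by linarith)]
    rw [lt_div_iff₀ (by linarith)] at hκ2
    linarith
  have := main he hexp (β := β) (h := h) hv hgood hκ0
    (fun δ' hδ' => conf_of_exp he hv.1.le hv.2.le hκ1 (by norm_num) hδ') h0 hc1 hρ (gf := g)
    (by
      intro δ' hδ'
      filter_upwards [hg δ' hδ'] with s hs
      refine hs.trans (measureReal_mono ?_ (measure_ne_top _ _))
      intro x hx z h1 h2 h3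
      have := hx z h1 h2 h3
      rwa [ppEnergy_eq] at this) hcc e2 hδ
  filter_upwards [this] with n hn
  obtain ⟨m, hm⟩ := hn
  refine ⟨m, hm.trans (measureReal_mono ?_ (measure_ne_top _ _))⟩
  intro x hx
  simp only [mem_ofPred_eq] at hx ⊢
  rwa [frEnergy_eq]

/-- one half of the scaling relation -/
theorem scaling (he : IsEnv P ω) (hexp : HasExp P ω) {β h v : ℝ} (hv : v ∈ Ioo (-1 : ℝ) 1)
    (hgood : ∀ a e : ℚ, (a : ℝ) < 1 → 0 < (e : ℝ) →
      ∀ᶠ j : ℕ in atTop, gs P ω β a (2 ^ j) v ≤ ((2 ^ j : ℕ) : ℝ) ^ ((a : ℝ) - 1 + e))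
    (hν : wanderingExpF P ω β h v < 1) :
    chiTyp P ω β h * (1 + chiDir P ω β v) ≤ 2 * chiDir P ω β v * wanderingExpF P ω β h v := by
  set ν := wanderingExpF P ω β h v with hνd
  have hν0 : 0 ≤ ν := exp_nonneg (P := P) (ω := ω) β h v
  set χ := chiDir P ω β v with hχ
  have hχ0 : 0 ≤ χ := chiDir_nonneg β v
  have hχ1 : χ ≤ 1 / 2 := chiDir_le_half he hexp β v
  set χt := chiTyp P ω β h with hχt
  have hχt0 : 0 ≤ χt := chiTyp_nonneg β h
  -- for a single exponent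
  have h1 : ∀ c₂ ∈ DirSet P ω β v, c₂ < 1 → χt * (1 + c₂) ≤ 2 * c₂ * ν := by
    intro c₂ hc₂ hc1
    have h0 : 0 < c₂ := hc₂.1
    have h2 : χt ≤ 2 * ν * c₂ / (1 + c₂) := by
      apply le_of_forall_gt_imp_ge_of_dense
      intro c hc
      rcases le_or_gt c c₂ with hcc | hcc
      · exact csInf_le (bddTyp β h) (main_exp he hexp hv hgood hc₂ hc1 hcc hc)
      · exact csInf_le (bddTyp β h) (typ_le_dir he hv hν hc₂ hcc)
    rw [le_div_iff₀ (by linarith)] at h2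
    linarith
  by_contra hcon
  push Not at hcon
  set ε := (χt * (1 + χ) - 2 * χ * ν) / 4 with hε
  have hε0 : 0 < ε := by rw [hε]; linarith
  obtain ⟨c₂, hc₂, hlt⟩ := exists_lt_of_csInf_lt (dir_nonempty he hexp β v)
    (show sInf (DirSet P ω β v) < χ + min ε (1 / 4) from by
      have : sInf (DirSet P ω β v) = χ := rfl
      rw [this]
      have : 0 < min ε (1 / 4) := lt_min hε0 (by norm_num)
      linarith)
  have hle : χ ≤ c₂ := csInf_le (bddDir β v) hc₂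
  have m1 : c₂ < χ + 1 / 4 := lt_of_lt_of_le hlt (by linarith [min_le_right ε (1 / 4)])
  have m2 : c₂ < χ + ε := lt_of_lt_of_le hlt (by linarith [min_le_left ε (1 / 4)])
  have h3 := h1 c₂ hc₂ (by linarith)
  have h4 : χt * (1 + χ) ≤ χt * (1 + c₂) := mul_le_mul_of_nonneg_left (by linarith) hχt0
  have h5 : 2 * c₂ * ν ≤ 2 * χ * ν + 2 * ε := by nlinarith
  have h6 : χt * (1 + χ) = 4 * ε + 2 * χ * ν := by rw [hε]; ring
  linarith

/-- all relations -/
theorem relations (he : IsEnv P ω) (hexp : HasExp P ω) (hnc : ¬ ∃ c : ℝ, ∀ᵐ a ∂P, ω 1 0 a = c)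
    {β : ℝ} (hβ : 0 < β) :
    ∀ᵐ v : ℝ, v ∈ Ioo (-1 : ℝ) 1 → ∀ h : ℝ, wanderingExpF P ω β h v < 1 →
      (1 - wanderingExpF P ω β h v) / 2 ≤ chiTyp P ω β h ∧
      chiTyp P ω β h ≤ chiDir P ω β v ∧ chiDir P ω β v ≤ 1 / 2 ∧
      chiTyp P ω β h * (1 + chiDir P ω β v) ≤ 2 * chiDir P ω β v * wanderingExpF P ω β h v ∧
      (chiTyp P ω β h = chiDir P ω β v → chiTyp P ω β h ≤ 2 * wanderingExpF P ω β h v - 1) := by
  filter_upwards [ae_all he hexp β] with v hgood hv h hν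
  have r1 := le_chiTyp he hexp hnc hβ (h := h) hv hν
  have r2 := chiTyp_le he hexp (β := β) (h := h) hv hν
  have r3 := chiDir_le_half he hexp β v
  have r4 := scaling he hexp hv (hgood hv) hν (h := h)
  refine ⟨r1, r2, r3, r4, ?_⟩
  intro heq
  rw [← heq] at r4
  have hpos : 0 < chiTyp P ω β h := by linarith
  by_contra hcon
  push Not at hcon
  nlinarith

end Pool.Agent.K1H53.KP
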