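import Pool.Agent.K1H53.SF.FEnv

/-!
Blocks of positions at an intermediate time `s` for free polymers of length `s + k`.
-/

namespace Pool.Agent.K1H53.KP

open Pool.Agent.K1H53.SD Pool.Agent.K1H53.SF

/-- weight of the paths of `s + k` steps from `x0` with position in `[b, b + l]` at time `s` -/
noncomputable def MG (K : ℕ → ℤ → ℝ) (φ : ℤ → ℝ) (s k : ℕ) (x0 b l : ℤ) : ℝ :=
  ∑ m ∈ Finset.Icc b (b + l), Z K x0 s m * Fr (sh s K) φ k m

lemma MG_nonneg {K : ℕ → ℤ → ℝ} (hK : ∀ i x, 0 ≤ K i x) {φ : ℤ → ℝ} (hφ : ∀ x, 0 ≤ φ x)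
    (s k : ℕ) (x0 b l : ℤ) : 0 ≤ MG K φ s k x0 b l :=
  Finset.sum_nonneg fun _ _ => mul_nonneg (Z_nonneg hK _ _ _) (Fr_nonneg (fun _ _ => hK _ _) hφ _ _)

lemma MG_pos {K : ℕ → ℤ → ℝ} (hK : ∀ i x, 0 < K i x) {φ : ℤ → ℝ} (hφ : ∀ x, 0 < φ x)
    {s k : ℕ} {x0 b l : ℤ} (hl : 0 ≤ l) (h : 0 < Z K x0 s b) : 0 < MG K φ s k x0 b l := by
  refine lt_of_lt_of_le (mul_pos h (Fr_pos (K := sh s K) (fun _ _ => hK _ _) hφ k b)) ?_
  unfold MG
  exact Finset.single_le_sum (f := fun m => Z K x0 s m * Fr (sh s K) φ k m)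
    (fun m _ => mul_nonneg (Z_nonneg (fun i x => (hK i x).le) _ _ _)
      (Fr_nonneg (fun _ _ => (hK _ _).le) (fun x => (hφ x).le) _ _))
    (Finset.mem_Icc.2 ⟨le_rfl, by omega⟩)

/-- the upper block -/
lemma MG_up {K : ℕ → ℤ → ℝ} (hK : ∀ i x, 0 ≤ K i x) {φ : ℤ → ℝ} (hφ : ∀ x, 0 ≤ φ x) {s k : ℕ}
    {b l : ℤ} {j : ℕ} (p : (b - s) % 2 = 0) (pl : l % 2 = 0) :
    MG K φ s k (2 * j) b l * Z K 0 s (b + l) ≤ Z K (2 * j) s (b + l) * MG K φ s k 0 b l := by
  unfold MG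
  rw [Finset.sum_mul, Finset.mul_sum]
  apply Finset.sum_le_sum
  intro m hm
  rw [Finset.mem_Icc] at hm
  by_cases hp : (m - s) % 2 = 0
  · have h := LR_end hK hK (fun i => LR.refl _) 0 j s m ((b + l - m) / 2).toNat
    have e : m + 2 * (((b + l - m) / 2).toNat : ℤ) = b + l := by
      rw [Int.toNat_of_nonneg (by omega)]
      omega
    rw [e, zero_add] at h
    have := mul_le_mul_of_nonneg_right h (Fr_nonneg (K := sh s K) (fun _ _ => hK _ _) hφ k m)
    linarith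
  · rw [Z_parity K (2 * (j : ℤ)) s m (by omega), Z_parity K 0 s m (by omega)]
    simp

/-- the lower block -/
lemma MG_down {K : ℕ → ℤ → ℝ} (hK : ∀ i x, 0 ≤ K i x) {φ : ℤ → ℝ} (hφ : ∀ x, 0 ≤ φ x) {s k : ℕ}
    {b l : ℤ} {j : ℕ} (p : (b - s) % 2 = 0) :
    Z K (2 * j) s b * MG K φ s k 0 b l ≤ MG K φ s k (2 * j) b l * Z K 0 s b := by
  unfold MG
  rw [Finset.sum_mul, Finset.mul_sum]
  apply Finset.sum_le_sum
  intro m hm
  rw [Finset.mem_Icc] at hm
  by_cases hp : (m - s) % 2 = 0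
  · have h := LR_end hK hK (fun i => LR.refl _) 0 j s b ((m - b) / 2).toNat
    have e : b + 2 * (((m - b) / 2).toNat : ℤ) = m := by
      rw [Int.toNat_of_nonneg (by omega)]
      omega
    rw [e, zero_add] at h
    have := mul_le_mul_of_nonneg_right h (Fr_nonneg (K := sh s K) (fun _ _ => hK _ _) hφ k m)
    linarith
  · rw [Z_parity K (2 * (j : ℤ)) s m (by omega), Z_parity K 0 s m (by omega)]
    simp

/-- if, started from `D`, the upper block has at least the mass of the lower one, then the same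
holds up to the discrepancy when started from `0` -/
lemma MG_comp {K : ℕ → ℤ → ℝ} (hK : ∀ i x, 0 < K i x) {φ : ℤ → ℝ} (hφ : ∀ x, 0 < φ x) {s k : ℕ}
    {v : ℝ} {b l D : ℤ} {r : ℕ} (g : Gm s v b l D r)
    (hD : MG K φ s k D b l ≤ MG K φ s k D (b + D) l) :
    Real.log (MG K φ s k 0 b l) - GF K s b l D ≤ Real.log (MG K φ s k 0 (b + D) l) := by
  obtain ⟨w1, w2, w3, w4, w5, w6⟩ := g.Zpos hK
  have hK' : ∀ i x, 0 ≤ K i x := fun i x => (hK i x).le
  have hφ' : ∀ x, 0 ≤ φ x := fun x => (hφ x).le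
  have h4 := g.hD; have h5 := g.hlD; have h3 := g.hl0; have h2 := g.hl; have h1 := g.hb
  have e2 : 2 * ((D / 2).toNat : ℤ) = D := by
    rw [Int.toNat_of_nonneg (by omega)]; omega
  have u := MG_up hK' hφ' (s := s) (k := k) (b := b + D) (l := l) (j := (D / 2).toNat)
    (by omega) h2
  have d := MG_down hK' hφ' (s := s) (k := k) (b := b) (l := l) (j := (D / 2).toNat) h1
  rw [e2] at u d
  have m1 : 0 < MG K φ s k 0 b l := MG_pos hK hφ h3 w4
  have m2 : 0 < MG K φ s k 0 (b + D) l := MG_pos hK hφ h3 w5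
  have m3 : 0 < MG K φ s k D b l := MG_pos hK hφ h3 w3
  have m4 : 0 < MG K φ s k D (b + D) l := MG_pos hK hφ h3 w6
  have l1 := Real.log_le_log (by positivity) u
  have l2 := Real.log_le_log (by positivity) d
  have l3 := Real.log_le_log m3 hD
  rw [Real.log_mul m4.ne' w2.ne', Real.log_mul w1.ne' m2.ne'] at l1
  rw [Real.log_mul w3.ne' m1.ne', Real.log_mul m3.ne' w4.ne'] at l2
  unfold GF
  linarith

variable {K : ℕ → ℤ → ℝ} {s k : ℕ} {v : ℝ} {b l D : ℤ} {r : ℕ}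

/-- the tube passes at time `s` through the block -/
lemma tube_block (hK : ∀ i x, 0 ≤ K i x) {φ : ℤ → ℝ} (hφ : ∀ x, 0 ≤ φ x) (hs : 1 ≤ s)
    {x0 a : ℤ} (h1 : (a : ℝ) ≤ x0 + s * v - r) (h2 : x0 + s * v + r ≤ (a : ℝ) + l)
    (h3 : x0 - s ≤ a) (h4 : a + l ≤ x0 + s) :
    Fr (mulK (tubF x0 v r) K) φ (s + k) x0 ≤ MG K φ s k x0 a l := by
  rw [Fr_glue]
  set T := mulK (tubF x0 v r) K with hT
  have hT0 : ∀ i x, 0 ≤ T i x := mulK_nonneg (tubF_nonneg _ _ _) hK
  have hTK : ∀ i x, T i x ≤ K i x := mulK_le (tubF_le_one _ _ _) hK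
  have hzero : ∀ m, m ∉ Finset.Icc a (a + l) → Z T x0 s m = 0 := by
    intro m hm
    obtain ⟨n, rfl⟩ : ∃ n, s = n + 1 := ⟨s - 1, by omega⟩
    rw [Z_succ]
    have : T (n + 1) m = 0 := by
      rw [hT]
      unfold mulK tubF
      rw [if_neg, zero_mul]
      intro h
      apply hm
      rw [abs_le] at h
      rw [Finset.mem_Icc]
      constructor
      · have : (a : ℝ) ≤ m := by linarith [h.1]
        exact_mod_cast this
      · have : (m : ℝ) ≤ ((a + l : ℤ) : ℝ) := by push_cast; linarith [h.2]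
        exact_mod_cast this
    rw [this, zero_mul]
  unfold MG
  have hsub : Finset.Icc a (a + l) ⊆ Finset.Icc (x0 - (s : ℤ)) (x0 + s) := by
    intro m hm
    rw [Finset.mem_Icc] at hm ⊢
    omega
  rw [← Finset.sum_subset hsub]
  · apply Finset.sum_le_sum
    intro m _
    exact mul_le_mul (Z_mono hT0 hTK _ _ _)
      (Fr_mono (fun _ _ => hT0 _ _) (fun _ _ => hTK _ _) hφ _ _)
      (Fr_nonneg (fun _ _ => hT0 _ _) hφ _ _) (Z_nonneg hK _ _ _)
  · intro m _ hm
    rw [hzero m hm, zero_mul]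

lemma two_blocks (hK : ∀ i x, 0 ≤ K i x) {φ : ℤ → ℝ} (hφ : ∀ x, 0 ≤ φ x) {x0 : ℤ}
    (hlD : l < D) (h1 : x0 - s ≤ b) (h2 : b + D + l ≤ x0 + s) :
    MG K φ s k x0 b l + MG K φ s k x0 (b + D) l ≤ Fr K φ (s + k) x0 := by
  rw [Fr_glue]
  unfold MG
  by_cases hl : 0 ≤ l
  · rw [← Finset.sum_union]
    · apply Finset.sum_le_sum_of_subset_of_nonneg
      · intro m hm
        rw [Finset.mem_union, Finset.mem_Icc, Finset.mem_Icc] at hm
        rw [Finset.mem_Icc]
        omega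
      · intro m _ _
        exact mul_nonneg (Z_nonneg hK _ _ _) (Fr_nonneg (fun _ _ => hK _ _) hφ _ _)
    · rw [Finset.disjoint_left]
      intro m h1 h2
      rw [Finset.mem_Icc] at h1 h2
      omega
  · push Not at hl
    rw [Finset.Icc_eq_empty (by omega), Finset.Icc_eq_empty (by omega)]
    simp only [Finset.sum_empty, add_zero]
    exact Finset.sum_nonneg fun _ _ =>
      mul_nonneg (Z_nonneg hK _ _ _) (Fr_nonneg (fun _ _ => hK _ _) hφ _ _)

/-- on the confinement event after time `s` the barrier costs only a factor -/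
lemma barrier_block (hK : ∀ i x, 0 < K i x) {h : ℝ} (g : Gm s v b l D r) {q : ℝ}
    (h2 : CF (sh s K) h k (b + D) v r q) :
    q * MG K (dr h) s k 0 (b + D) l ≤ MG (mulK (barF s v r) K) (dr h) s k 0 (b + D) l := by
  have hK' : ∀ i x, 0 ≤ K i x := fun i x => (hK i x).le
  have hφ : ∀ x, 0 ≤ dr h x := fun x => (dr_pos h x).le
  set B := mulK (barF s v r) K with hB
  have hB0 : ∀ i x, 0 ≤ B i x := mulK_nonneg (barF_nonneg _ _ _) hK'
  have hup := g.up
  have hpar := g.hb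
  have hpar2 := g.hD
  have k1 : q * Fr (sh s K) (dr h) k (b + D) ≤ Fr (sh s B) (dr h) k (b + D) := by
    refine le_trans h2 ?_
    apply Fr_mono (mulK_nonneg (tubF_nonneg _ _ _) (fun _ _ => hK' _ _)) _ hφ
    intro i x
    unfold mulK sh
    rw [hB]
    unfold mulK
    apply mul_le_mul_of_nonneg_right _ (hK' _ _)
    unfold tubF barF
    split_ifs with c1 c2 c3
    · exact le_rfl
    · exfalso
      apply c3
      rw [abs_le] at c1
      push_cast at c1 ⊢
      linarith [c1.1]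
    · exact le_rfl
    · norm_num
    · exact le_rfl
    · norm_num
  have pos2 : 0 < Fr (sh s K) (dr h) k (b + D) := Fr_pos (fun _ _ => hK _ _) (dr_pos h) _ _
  have f2 : ∀ m, b + D ≤ m → (m - (b + D)) % 2 = 0 →
      q * Fr (sh s K) (dr h) k m ≤ Fr (sh s B) (dr h) k m := fun m h1 h2 =>
    cmp_Fr (K := sh s K) (L := sh s B) (fun _ _ => hK' _ _) (fun _ _ => hB0 _ _)
      (fun i => LR_barF hK' s v r _) hφ h1 h2 pos2 k1
  have f1 : ∀ m, Z B 0 s m = Z K 0 s m := by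
    intro m
    apply Z_congr
    intro i x _ hi _
    rw [hB]
    unfold mulK barF
    rw [if_neg (by omega), one_mul]
  unfold MG
  rw [Finset.mul_sum]
  apply Finset.sum_le_sum
  intro m hm
  rw [Finset.mem_Icc] at hm
  rw [f1 m]
  by_cases hp : (m - s) % 2 = 0
  · have a2 := f2 m (by omega) (by omega)
    calc q * (Z K 0 s m * Fr (sh s K) (dr h) k m)
        = Z K 0 s m * (q * Fr (sh s K) (dr h) k m) := by ring
      _ ≤ Z K 0 s m * Fr (sh s B) (dr h) k m :=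
          mul_le_mul_of_nonneg_left a2 (Z_nonneg hK' _ _ _)
  · rw [Z_parity K 0 s m (by omega), zero_mul, mul_zero, zero_mul]

lemma barrier_le (hK : ∀ i x, 0 < K i x) {h : ℝ} (a : ℤ) :
    MG (mulK (barF s v r) K) (dr h) s k 0 a l ≤ MG K (dr h) s k 0 a l := by
  have hK' : ∀ i x, 0 ≤ K i x := fun i x => (hK i x).le
  have hφ : ∀ x, 0 ≤ dr h x := fun x => (dr_pos h x).le
  have h0 := mulK_nonneg (barF_nonneg s v r) hK'
  have h1 := mulK_le (barF_le_one s v r) hK'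
  unfold MG
  apply Finset.sum_le_sum
  intro m _
  exact mul_le_mul (Z_mono h0 h1 _ _ _) (Fr_mono (fun _ _ => h0 _ _) (fun _ _ => h1 _ _) hφ _ _)
    (Fr_nonneg (fun _ _ => h0 _ _) hφ _ _) (Z_nonneg hK' _ _ _)

/-- the deterministic conclusion -/
lemma det_core (hK : ∀ i x, 0 < K i x) {h : ℝ} (g : Gm s v b l D r) {q t : ℝ} (hq : 1 / 2 < q)
    (h1 : CF K h (s + k) 0 v r q) (h2 : CF K h (s + k) D v r q)
    (h3 : CF (sh s K) h k (b + D) v r q) (h4 : GF K s b l D ≤ t) :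
    Real.log (MG (mulK (barF s v r) K) (dr h) s k 0 (b + D) l) -
      Real.log (Fr (mulK (tubF 0 v r) K) (dr h) (s + k) 0) ∈ Set.Icc (Real.log q - t) 0 ∧
    Real.log (MG K (dr h) s k 0 b l) -
      Real.log (Fr (mulK (tubF 0 v r) K) (dr h) (s + k) 0) ∈ Set.Icc 0 (-Real.log q) ∧
    Real.log (Fr K (dr h) (s + k) 0) -
      Real.log (Fr (mulK (tubF 0 v r) K) (dr h) (s + k) 0) ∈ Set.Icc 0 (-Real.log q) := by
  have hK' : ∀ i x, 0 ≤ K i x := fun i x => (hK i x).le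
  have hφ : ∀ x, 0 ≤ dr h x := fun x => (dr_pos h x).le
  have hq0 : 0 < q := by linarith
  obtain ⟨w1, w2, w3, w4, w5, w6⟩ := g.Zpos hK
  have c1 := g.hb; have c2 := g.hl; have c3 := g.hl0; have c4 := g.hD; have c5 := g.hlD
  have c6 := g.b1; have c7 := g.b2
  have ghi := g.hi
  have glo := g.lo
  set ZT := Fr (mulK (tubF 0 v r) K) (dr h) (s + k) 0 with hZT
  have m1 : 0 < MG K (dr h) s k 0 b l := MG_pos hK (dr_pos h) c3 w4
  have m2 : 0 < MG K (dr h) s k 0 (b + D) l := MG_pos hK (dr_pos h) c3 w5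
  have Zpos : 0 < Fr K (dr h) (s + k) 0 := Fr_pos hK (dr_pos h) _ _
  have ZTpos : 0 < ZT := lt_of_lt_of_le (mul_pos hq0 Zpos) h1
  have a1 : ZT ≤ MG K (dr h) s k 0 b l := by
    apply tube_block hK' hφ g.hN
    · push_cast; linarith
    · push_cast; linarith
    · omega
    · omega
  have a2 : Fr (mulK (tubF D v r) K) (dr h) (s + k) D ≤ MG K (dr h) s k D (b + D) l := by
    apply tube_block hK' hφ g.hN
    · push_cast; linarith
    · push_cast; linarith
    · omega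
    · omega
  have a3 := two_blocks (k := k) hK' hφ (x0 := 0) (b := b) (l := l) (D := D) c5 (s := s)
    (by omega) (by omega)
  have a4 := two_blocks (k := k) hK' hφ (x0 := D) (b := b) (l := l) (D := D) c5 (s := s)
    (by omega) (by omega)
  have m3 : 0 ≤ MG K (dr h) s k D (b + D) l := MG_nonneg hK' hφ _ _ _ _ _
  have m4 : 0 ≤ MG K (dr h) s k D b l := MG_nonneg hK' hφ _ _ _ _ _
  have b1 : MG K (dr h) s k D b l ≤ MG K (dr h) s k D (b + D) l := by
    have := h2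
    unfold CF at this
    have h5 : q * (MG K (dr h) s k D b l + MG K (dr h) s k D (b + D) l) ≤
        MG K (dr h) s k D (b + D) l := (mul_le_mul_of_nonneg_left a4 hq0.le).trans (this.trans a2)
    nlinarith
  have b2 := MG_comp hK (dr_pos h) g b1
  have b3 := barrier_block hK g h3
  have b4 := barrier_le (s := s) (k := k) (v := v) (l := l) (r := r) hK (h := h) (b + D)
  set M' := MG (mulK (barF s v r) K) (dr h) s k 0 (b + D) l with hM'
  have M'pos : 0 < M' := lt_of_lt_of_le (by positivity) b3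
  have h1' : q * Fr K (dr h) (s + k) 0 ≤ ZT := h1
  have l0 := Real.log_le_log (by positivity) h1'
  rw [Real.log_mul hq0.ne' Zpos.ne'] at l0
  have hZle : ZT ≤ Fr K (dr h) (s + k) 0 := by
    rw [hZT]
    exact Fr_mono (mulK_nonneg (tubF_nonneg _ _ _) hK') (mulK_le (tubF_le_one _ _ _) hK') hφ _ _
  refine ⟨⟨?_, ?_⟩, ⟨?_, ?_⟩, ⟨?_, ?_⟩⟩
  · have l1 := Real.log_le_log (by positivity) b3
    rw [Real.log_mul hq0.ne' m2.ne'] at l1
    have l2 := Real.log_le_log ZTpos a1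
    linarith
  · have hle : M' ≤ ZT := by nlinarith
    have := Real.log_le_log M'pos hle
    linarith
  · have := Real.log_le_log ZTpos a1
    linarith
  · have hle : MG K (dr h) s k 0 b l ≤ Fr K (dr h) (s + k) 0 := by linarith
    have := Real.log_le_log m1 hle
    linarith
  · have := Real.log_le_log ZTpos hZle
    linarith
  · linarith

end Pool.Agent.K1H53.KP
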