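import Pool.Agent.K1H53.KP.Conf

/-!
Lower bound of the typical fluctuations, and typical fluctuations against point-to-point
fluctuations.
-/

open MeasureTheory ProbabilityTheory Set Filter

set_option linter.unusedSectionVars false

namespace Pool.Agent.K1H53.KP

open Pool.Agent.K1H53.SD Pool.Agent.K1H53.SF

variable {Ω : Type*} [MeasurableSpace Ω] {P : Measure Ω} [IsProbabilityMeasure P]
variable {ω : ℕ → ℤ → Ω → ℝ}

lemma inter_bound {A B : Set Ω} (mB : MeasurableSet B) {δ : ℝ} (hA : 1 - δ ≤ P.real A)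
    (hB : 1 - δ ≤ P.real B) : 1 - 2 * δ ≤ P.real (A ∩ B) := by
  have h1 := measureReal_sdiff_add_inter (μ := P) (s := A) (t := B) mB
  have h2 : P.real (A \ B) ≤ P.real Bᶜ := measureReal_mono (fun x hx => hx.2)
  rw [compl_bound mB] at h2
  linarith

/-- concentration at the scale `(2N)^c` and confinement at the scale `(2N)^κ` -/
lemma lower_step (he : IsEnv P ω) {a₀ b₀ : ℝ} (hab : a₀ < b₀)
    (hp : 0 < (P.map (ω 1 0)).real (Set.Ici b₀)) (hm : 0 < (P.map (ω 1 0)).real (Set.Iic a₀))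
    {β : ℝ} (hβ : 0 < β) (h : ℝ) {N r : ℕ} (hN : 1 ≤ N) (v : ℝ) {L m : ℝ} (hL : 0 ≤ L)
    (h1 : 1 - 1 / 4 ≤ qf P ω β h (2 * N) v r (3 / 4))
    (h2 : 1 - 1 / 4 ≤ P.real {x | |frEnergy β h (fun i y => ω i y x) (2 * N) - m| ≤ L}) :
    1 / 2 ≤ (2 * L + 3) * Real.sqrt ((2 * r + 1) *
        (1 / (P.map (ω 1 0)).real (Set.Ici b₀) + 1 / (P.map (ω 1 0)).real (Set.Iic a₀))) /
        (Real.sqrt N * (1 - Real.exp (-(β * (b₀ - a₀))))) := by
  have hc := conc he hab hp hm hβ h hN v r (b := 0) (l := -1) (by omega) (by omega)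
    (lo := -m - L) (hi := -m + L + 1) (by linarith)
  have e0 : -m + L + 1 - (-m - L) + 2 = 2 * L + 3 := by ring
  rw [e0] at hc
  refine le_trans ?_ hc
  have m1 : MeasurableSet {x | CF (wt β (fld ω x)) h (2 * N) 0 v r (3 / 4)} :=
    measurableSet_CF (fun i x => measurable_wt' he β i x) _ _ _ _ _ _
  have h3 := inter_bound (P := P) m1 h2 h1
  have e1 : (1 : ℝ) - 2 * (1 / 4) = 1 / 2 := by norm_num
  rw [e1] at h3
  refine h3.trans (measureReal_mono ?_ (measure_ne_top _ _))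
  rintro x ⟨hx1, hx2⟩
  simp only [mem_ofPred_eq] at hx1 hx2 ⊢
  have hK : ∀ i y, 0 < wt β (fld ω x) i y := fun i y => wt_pos _ _ _ _
  have Zpos : 0 < Fr (wt β (fld ω x)) (dr h) (2 * N) 0 := Fr_pos hK (dr_pos h) _ _
  have hx2' : 3 / 4 * Fr (wt β (fld ω x)) (dr h) (2 * N) 0 ≤
    Fr (mulK (tubF 0 v r) (wt β (fld ω x))) (dr h) (2 * N) 0 := hx2
  have Tpos : 0 < Fr (mulK (tubF 0 v r) (wt β (fld ω x))) (dr h) (2 * N) 0 :=
    lt_of_lt_of_le (by positivity) hx2'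
  have hle : Fr (mulK (tubF 0 v r) (wt β (fld ω x))) (dr h) (2 * N) 0 ≤
      Fr (wt β (fld ω x)) (dr h) (2 * N) 0 :=
    Fr_mono (mulK_nonneg (tubF_nonneg _ _ _) (fun i y => (hK i y).le))
      (mulK_le (tubF_le_one _ _ _) (fun i y => (hK i y).le)) (fun y => (dr_pos h y).le) _ _
  have l1 := Real.log_le_log Tpos hle
  have l2 := Real.log_le_log (by positivity) hx2'
  rw [Real.log_mul (by norm_num) Zpos.ne'] at l2
  have l3 : -1 ≤ Real.log (3 / 4) := by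
    have := Real.one_sub_inv_le_log_of_pos (show (0 : ℝ) < 3 / 4 by norm_num)
    norm_num at this ⊢
    linarith
  rw [frEnergy_eq] at hx1
  have hx1' := abs_le.1 hx1
  refine ⟨Tpos, ?_⟩
  have e2 : MF (mulK (barF N v r) (wt β (fld ω x))) (dr h) N 0 0 (-1) = 0 := by
    unfold MF
    rw [Finset.Icc_eq_empty (by norm_num), Finset.sum_empty]
  rw [e2, Real.log_zero]
  constructor <;> linarith [hx1'.1, hx1'.2]

/-- typical fluctuations are at least `n^((1 - ν)/2)` -/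
theorem lower (he : IsEnv P ω) (hexp : HasExp P ω) (hnc : ¬ ∃ c : ℝ, ∀ᵐ a ∂P, ω 1 0 a = c)
    {β : ℝ} (hβ : 0 < β) {h v : ℝ} (h1 : -1 ≤ v) (h2 : v ≤ 1) {c : ℝ} (hc : c ∈ TypSet P ω β h) :
    (1 - wanderingExpF P ω β h v) / 2 ≤ c := by
  by_contra hcon
  push Not at hcon
  obtain ⟨hc0, hc⟩ := hc
  obtain ⟨a₀, b₀, hab, hp, hm⟩ := exists_gap (he.meas 1 0) hexp hnc
  obtain ⟨κ, hκ1, hκ2⟩ := exists_between (show wanderingExpF P ω β h v < 1 - 2 * c by linarith)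
  have hκ0 : 0 < κ := lt_of_le_of_lt (exp_nonneg (P := P) (ω := ω) β h v) hκ1
  have hq := conf_of_exp he (β := β) (h := h) h1 h2 hκ1 (q := 3 / 4) (by norm_num)
    (δ := 1 / 4) (by norm_num)
  have hc4 := hc (1 / 4) (by norm_num)
  set Q := 1 / (P.map (ω 1 0)).real (Set.Ici b₀) + 1 / (P.map (ω 1 0)).real (Set.Iic a₀) with hQ
  have hQ0 : 0 < Q := by positivity
  set q' := 1 - Real.exp (-(β * (b₀ - a₀))) with hq'
  have hq'0 : 0 < q' := by
    have : Real.exp (-(β * (b₀ - a₀))) < 1 := by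
      rw [Real.exp_lt_one_iff]
      have := mul_pos hβ (sub_pos.2 hab)
      linarith
    rw [hq']
    linarith
  have hT : Tendsto (fun N : ℕ => 2 * N) atTop (atTop : Filter ℕ) :=
    tendsto_id.const_mul_atTop' (by norm_num)
  have hE := rpow_lt_eventually (x := 2 * c + κ) (y := 1) (A := 25 * 11 * Q * 4 * 2 / q' ^ 2 + 1)
    (B := 0) (by linarith) one_pos
  obtain ⟨N, n1, n2, n3, n4⟩ := ((hT.eventually hq).and ((hT.eventually hc4).and
    ((hT.eventually hE).and (eventually_ge_atTop 1)))).exists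
  obtain ⟨m, n2⟩ := n2
  have hNR : (1 : ℝ) ≤ N := by exact_mod_cast n4
  set M : ℝ := ((2 * N : ℕ) : ℝ) with hM
  have hM1 : 1 ≤ M := by rw [hM]; push_cast; linarith
  have hM0 : 0 < M := by linarith
  have hMc : 1 ≤ M ^ c := Real.one_le_rpow hM1 hc0.le
  have hMκ : 1 ≤ M ^ κ := Real.one_le_rpow hM1 hκ0.le
  have key := lower_step he hab hp hm hβ h n4 v (r := ⌈M ^ κ⌉₊ + 3) (L := M ^ c) (m := m)
    (by linarith) n1 n2
  rw [← hQ, ← hq'] at key
  have hr : 2 * ((⌈M ^ κ⌉₊ + 3 : ℕ) : ℝ) + 1 ≤ 11 * M ^ κ := by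
    have := Nat.ceil_lt_add_one (show 0 ≤ M ^ κ by linarith)
    push_cast
    linarith
  have k2 : (1 / 2 : ℝ) ^ 2 ≤ ((2 * M ^ c + 3) * Real.sqrt ((2 * ((⌈M ^ κ⌉₊ + 3 : ℕ) : ℝ) + 1) * Q) /
      (Real.sqrt N * q')) ^ 2 := pow_le_pow_left₀ (by norm_num) key 2
  have k5 : ((2 * M ^ c + 3) * Real.sqrt ((2 * ((⌈M ^ κ⌉₊ + 3 : ℕ) : ℝ) + 1) * Q) /
      (Real.sqrt N * q')) ^ 2 = (2 * M ^ c + 3) ^ 2 *
        ((2 * ((⌈M ^ κ⌉₊ + 3 : ℕ) : ℝ) + 1) * Q) / (N * q' ^ 2) := by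
    rw [div_pow, mul_pow, mul_pow, Real.sq_sqrt (by positivity), Real.sq_sqrt (by positivity)]
  have k6 : (2 * M ^ c + 3) ^ 2 ≤ 25 * (M ^ c) ^ 2 := by nlinarith
  have k7 : (2 * M ^ c + 3) ^ 2 * ((2 * ((⌈M ^ κ⌉₊ + 3 : ℕ) : ℝ) + 1) * Q) ≤
      25 * (M ^ c) ^ 2 * (11 * M ^ κ * Q) :=
    mul_le_mul k6 (mul_le_mul_of_nonneg_right hr hQ0.le) (by positivity) (by positivity)
  have k8 : (M ^ c) ^ 2 * M ^ κ = M ^ (2 * c + κ) := by
    rw [← Real.rpow_natCast, ← Real.rpow_mul hM0.le, ← Real.rpow_add hM0]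
    congr 1
    push_cast
    ring
  rw [k5, le_div_iff₀ (by positivity)] at k2
  have k9 : (N : ℝ) = M / 2 := by rw [hM]; push_cast; ring
  rw [k9] at k2
  have k10 : M * q' ^ 2 ≤ 25 * 11 * Q * 4 * 2 * M ^ (2 * c + κ) := by
    rw [← k8]
    nlinarith
  rw [add_zero, Real.rpow_one] at n3
  have hpos : 0 < M ^ (2 * c + κ) := Real.rpow_pos_of_pos hM0 _
  have k11 : 25 * 11 * Q * 4 * 2 / q' ^ 2 * M ^ (2 * c + κ) < M := by
    have : (25 * 11 * Q * 4 * 2 / q' ^ 2 + 1) * M ^ (2 * c + κ) =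
      25 * 11 * Q * 4 * 2 / q' ^ 2 * M ^ (2 * c + κ) + M ^ (2 * c + κ) := by ring
    rw [this] at n3
    linarith
  rw [div_mul_eq_mul_div, div_lt_iff₀ (by positivity)] at k11
  linarith

/-- typical fluctuations of the free polymer are at most those of the point-to-point polymers -/
theorem typ_le_dir (he : IsEnv P ω) {β h v : ℝ} (hv : v ∈ Ioo (-1 : ℝ) 1)
    (hν : wanderingExpF P ω β h v < 1) {c₂ c : ℝ} (hc₂ : c₂ ∈ DirSet P ω β v) (hc : c₂ < c) :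
    c ∈ TypSet P ω β h := by
  obtain ⟨h0, ρ, hρ, g, hg⟩ := hc₂
  refine ⟨by linarith, ?_⟩
  intro δ hδ
  obtain ⟨κ, hκ1, hκ2⟩ := exists_between hν
  have hκ0 : 0 < κ := lt_of_le_of_lt (exp_nonneg (P := P) (ω := ω) β h v) hκ1
  have hq := conf_of_exp he (β := β) (h := h) hv.1.le hv.2.le hκ1 (q := 3 / 4) (by norm_num)
    (δ := δ / 2) (by linarith)
  have hg2 := hg (δ / 2) (by linarith)
  have hvm : 0 < 1 - |v| := by
    have := abs_lt.2 ⟨hv.1, hv.2⟩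
    linarith
  have S2 : ∀ᶠ s : ℕ in atTop, (80 / (1 - |v|)) * (s : ℝ) ^ κ + 0 ≤ (s : ℝ) ^ (1 : ℝ) :=
    rpow_lt_eventually hκ2 one_pos
  have S4 : ∀ᶠ s : ℕ in atTop, (80 / ρ) * (s : ℝ) ^ κ + 0 ≤ (s : ℝ) ^ (1 : ℝ) :=
    rpow_lt_eventually hκ2 one_pos
  have S3 : ∀ᶠ s : ℕ in atTop, 1 * (s : ℝ) ^ c₂ + 1 ≤ (s : ℝ) ^ c :=
    rpow_lt_eventually hc (by linarith)
  filter_upwards [hq, hg2, S2, S4, S3, eventually_ge_atTop 1] with n t1 t2 t3 t4 t5 t6
  have hnR : (1 : ℝ) ≤ n := by exact_mod_cast t6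
  have hn0 : (0 : ℝ) < n := by linarith
  have hMκ : 1 ≤ (n : ℝ) ^ κ := Real.one_le_rpow hnR hκ0.le
  set r := ⌈(n : ℝ) ^ κ⌉₊ + 3 with hr
  have hr3 : 3 ≤ r := by omega
  have hrκ : (r : ℝ) ≤ 5 * (n : ℝ) ^ κ := by
    have := Nat.ceil_lt_add_one (show 0 ≤ (n : ℝ) ^ κ by linarith)
    rw [hr]
    push_cast
    linarith
  rw [add_zero, Real.rpow_one, div_mul_eq_mul_div, div_le_iff₀ hvm] at t3
  rw [add_zero, Real.rpow_one, div_mul_eq_mul_div, div_le_iff₀ hρ] at t4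
  have hb1 : (r : ℝ) * 16 ≤ n * (1 + v) := by
    have : (n : ℝ) * (1 - |v|) ≤ n * (1 + v) :=
      mul_le_mul_of_nonneg_left (by linarith [neg_abs_le v]) hn0.le
    linarith
  have hb2 : (r : ℝ) * 16 ≤ n * (1 - v) := by
    have : (n : ℝ) * (1 - |v|) ≤ n * (1 - v) :=
      mul_le_mul_of_nonneg_left (by linarith [le_abs_self v]) hn0.le
    linarith
  obtain ⟨b, l, D, gm, hD, k1, k2, k3, k4⟩ := gm_of t6 hr3 hb1 hb2
  set k := ⌊(n : ℝ) * (1 + v) / 2⌋ with hk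
  have hJ : ∀ m : ℤ, b ≤ m → m ≤ b + l → |(m : ℝ) - n * v| ≤ 16 * r ∧ |m| ≤ (n : ℤ) := by
    intro m hm1 hm2
    have c3 := gm.hl0; have c4 := gm.hD; have c5 := gm.hlD
    have c6 := gm.b1; have c7 := gm.b2
    have e1 := Int.floor_le ((n : ℝ) * (1 + v) / 2)
    have e2 := Int.lt_floor_add_one ((n : ℝ) * (1 + v) / 2)
    rw [← hk] at e1 e2
    have hrR : (3 : ℝ) ≤ r := by exact_mod_cast hr3
    constructor
    · rw [abs_le]
      constructor
      · have h1 : 2 * (k - 7 * r) - n - 2 ≤ m := by omega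
        have h2 : ((2 * (k - 7 * r) - n - 2 : ℤ) : ℝ) ≤ m := by exact_mod_cast h1
        push_cast at h2
        linarith
      · have h1 : m ≤ 2 * (k + 7 * r) - n := by omega
        have h2 : (m : ℝ) ≤ ((2 * (k + 7 * r) - n : ℤ) : ℝ) := by exact_mod_cast h1
        push_cast at h2
        linarith
    · rw [abs_le]; omega
  -- the deterministic centering
  set G := Real.log (GH (fun _ _ => 1) (dr h) (g n) n 0 b l) with hG
  refine ⟨G, ?_⟩
  have mC : MeasurableSet {x | CF (wt β (fld ω x)) h n 0 v r (3 / 4)} :=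
    measurableSet_CF (fun i x => measurable_wt' he β i x) _ _ _ _ _ _
  have h3 := inter_bound (P := P) mC t2 t1
  have e1 : (1 : ℝ) - 2 * (δ / 2) = 1 - δ := by ring
  rw [e1] at h3
  refine h3.trans (measureReal_mono ?_ (measure_ne_top _ _))
  rintro x ⟨hx1, hx2⟩
  simp only [mem_ofPred_eq] at hx1 hx2 ⊢
  have hK : ∀ i y, 0 < wt β (fld ω x) i y := fun i y => wt_pos _ _ _ _
  have hK' : ∀ i y, 0 ≤ wt β (fld ω x) i y := fun i y => (hK i y).le
  have hφ : ∀ y, 0 ≤ dr h y := fun y => (dr_pos h y).le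
  have c1 := gm.hb; have c3 := gm.hl0; have c4 := gm.hD; have c5 := gm.hlD
  have c6 := gm.b1; have c7 := gm.b2
  have ghi := gm.hi
  have glo := gm.lo
  obtain ⟨w1, w2, w3, w4, w5, w6⟩ := gm.Zpos hK
  have hnear := GH_near (K := wt β (fld ω x)) hK (dr_pos h) (g := g n) (s := n) (k := 0) (b := b)
    (l := l) c3 c1 (by omega) (by omega) (lam := (n : ℝ) ^ c₂) (by
      intro m hm1 hm2 hm3
      have := hJ m hm1 hm2
      have h9 := hx1 m this.2 hm3 (by linarith [this.1])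
      rwa [ppEnergy_eq] at h9)
  have hGe : GH (wt β (fld ω x)) (dr h) (g n) n 0 b l = GH (fun _ _ => 1) (dr h) (g n) n 0 b l := by
    unfold GH
    apply Finset.sum_congr rfl
    intro m _
    rw [Fr_zero, Fr_zero]
  rw [hGe, ← hG] at hnear
  have a1 : Fr (mulK (tubF 0 v r) (wt β (fld ω x))) (dr h) (n + 0) 0 ≤
      MG (wt β (fld ω x)) (dr h) n 0 0 b l := by
    apply tube_block hK' hφ gm.hN
    · push_cast; linarith
    · push_cast; linarith
    · omega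
    · omega
  have a3 := two_blocks (k := 0) hK' hφ (x0 := 0) (b := b) (l := l) (D := D) c5 (s := n)
    (by omega) (by omega)
  have a4 : 0 ≤ MG (wt β (fld ω x)) (dr h) n 0 0 (b + D) l := MG_nonneg hK' hφ _ _ _ _ _
  have m1 : 0 < MG (wt β (fld ω x)) (dr h) n 0 0 b l := MG_pos hK (dr_pos h) c3 w4
  have Zpos : 0 < Fr (wt β (fld ω x)) (dr h) n 0 := Fr_pos hK (dr_pos h) _ _
  have hx2' : 3 / 4 * Fr (wt β (fld ω x)) (dr h) n 0 ≤
    Fr (mulK (tubF 0 v r) (wt β (fld ω x))) (dr h) n 0 := hx2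
  rw [Nat.add_zero] at a1 a3
  have l1 := Real.log_le_log m1 (show MG (wt β (fld ω x)) (dr h) n 0 0 b l ≤
    Fr (wt β (fld ω x)) (dr h) n 0 by linarith)
  have l2 := Real.log_le_log (by positivity) (hx2'.trans a1)
  rw [Real.log_mul (by norm_num) Zpos.ne'] at l2
  have l3 : -1 ≤ Real.log (3 / 4) := by
    have := Real.one_sub_inv_le_log_of_pos (show (0 : ℝ) < 3 / 4 by norm_num)
    norm_num at this ⊢
    linarith
  rw [frEnergy_eq]
  have hn' := abs_le.1 hnear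
  rw [abs_le]
  constructor <;> linarith [hn'.1, hn'.2]

end Pool.Agent.K1H53.KP
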