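import Pool.Agent.K1H53.KP.GDet
import Pool.Agent.K1H53.KP.Glue

/-!
The fluctuation bound at a fixed scale.
-/

open MeasureTheory ProbabilityTheory
open Classical

set_option linter.unusedSectionVars false

namespace Pool.Agent.K1H53.KP

open Pool.Agent.K1H53.SD Pool.Agent.K1H53.SF

/-- the sites of the rows up to `s` -/
def RA (s : ℕ) : Set (ℕ × ℤ) := {p | p.1 ≤ s}

/-- the sites of the tube -/
def RB (v : ℝ) (r : ℕ) (s : ℕ) : Set (ℕ × ℤ) := {p | s < p.1 ∧ |(p.2 : ℝ) - p.1 * v| ≤ r}

/-- the partition function with deterministic first part -/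
noncomputable def GH (K : ℕ → ℤ → ℝ) (φ g : ℤ → ℝ) (s k : ℕ) (b l : ℤ) : ℝ :=
  ∑ m ∈ Finset.Icc b (b + l), (if (m - s) % 2 = 0 then Real.exp (g m) else 0) * Fr (sh s K) φ k m

lemma GH_near {K : ℕ → ℤ → ℝ} (hK : ∀ i x, 0 < K i x) {φ : ℤ → ℝ} (hφ : ∀ x, 0 < φ x)
    {g : ℤ → ℝ} {s k : ℕ} {b l : ℤ} (hl : 0 ≤ l) (hb : (b - s) % 2 = 0) (hb1 : -(s : ℤ) ≤ b)
    (hb2 : b + l ≤ s) {lam : ℝ}
    (h : ∀ m, b ≤ m → m ≤ b + l → (m - s) % 2 = 0 → |Real.log (Z K 0 s m) - g m| ≤ lam) :
    |Real.log (MG K φ s k 0 b l) - Real.log (GH K φ g s k b l)| ≤ lam := by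
  have hK' : ∀ i x, 0 ≤ K i x := fun i x => (hK i x).le
  have zp : ∀ m, b ≤ m → m ≤ b + l → (m - s) % 2 = 0 → 0 < Z K 0 s m := by
    intro m h1 h2 h3
    apply Z_pos hK
    · rw [sub_zero, abs_le]; omega
    · omega
  have m1 : 0 < MG K φ s k 0 b l := MG_pos hK hφ hl (zp b le_rfl (by omega) hb)
  have e : ∀ m ∈ Finset.Icc b (b + l),
      (if (m - s) % 2 = 0 then Real.exp (g m) else 0) * Fr (sh s K) φ k m ≤
        Real.exp lam * (Z K 0 s m * Fr (sh s K) φ k m) ∧
      Z K 0 s m * Fr (sh s K) φ k m ≤ Real.exp lam *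
        ((if (m - s) % 2 = 0 then Real.exp (g m) else 0) * Fr (sh s K) φ k m) := by
    intro m hm
    rw [Finset.mem_Icc] at hm
    have hF : 0 ≤ Fr (sh s K) φ k m := Fr_nonneg (fun _ _ => hK' _ _) (fun x => (hφ x).le) _ _
    by_cases hp : (m - s) % 2 = 0
    · rw [if_pos hp]
      have zpm := zp m hm.1 hm.2 hp
      have hh := abs_le.1 (h m hm.1 hm.2 hp)
      have ez : Z K 0 s m = Real.exp (Real.log (Z K 0 s m)) := (Real.exp_log zpm).symm
      constructor
      · rw [← mul_assoc]
        apply mul_le_mul_of_nonneg_right _ hF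
        rw [ez, ← Real.exp_add]
        apply Real.exp_le_exp.2
        linarith [hh.1]
      · rw [← mul_assoc]
        apply mul_le_mul_of_nonneg_right _ hF
        rw [ez, ← Real.exp_add]
        apply Real.exp_le_exp.2
        linarith [hh.2]
    · rw [if_neg hp, Z_parity K 0 s m (by omega)]
      simp
  have u1 : GH K φ g s k b l ≤ Real.exp lam * MG K φ s k 0 b l := by
    unfold GH MG
    rw [Finset.mul_sum]
    exact Finset.sum_le_sum (fun m hm => (e m hm).1)
  have u2 : MG K φ s k 0 b l ≤ Real.exp lam * GH K φ g s k b l := by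
    unfold GH MG
    rw [Finset.mul_sum]
    exact Finset.sum_le_sum (fun m hm => (e m hm).2)
  have m2 : 0 < GH K φ g s k b l := by
    by_contra hcon
    push Not at hcon
    have h3 : Real.exp lam * GH K φ g s k b l ≤ 0 :=
      mul_nonpos_of_nonneg_of_nonpos (Real.exp_pos lam).le hcon
    linarith
  have l1 := Real.log_le_log m2 u1
  have l2 := Real.log_le_log m1 u2
  rw [Real.log_mul (Real.exp_pos _).ne' m1.ne', Real.log_exp] at l1
  rw [Real.log_mul (Real.exp_pos _).ne' m2.ne', Real.log_exp] at l2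
  rw [abs_le]
  constructor <;> linarith

lemma Fr_congr {K L : ℕ → ℤ → ℝ} {n : ℕ} (h : ∀ i x, 1 ≤ i → K i x = L i x) (φ : ℤ → ℝ)
    (x0 : ℤ) : Fr K φ n x0 = Fr L φ n x0 := by
  unfold Fr
  apply Finset.sum_congr rfl
  intro z _
  congr 1
  apply Z_congr
  intro i x h1 _ _
  exact h i x h1

variable {Ω : Type*} [MeasurableSpace Ω] {P : Measure Ω} [IsProbabilityMeasure P]
variable {ω : ℕ → ℤ → Ω → ℝ}

lemma measurable_MG {α : Type*} [MeasurableSpace α] {K : α → ℕ → ℤ → ℝ}
    (hK : ∀ i x, Measurable (fun a => K a i x)) (φ : ℤ → ℝ) (s k : ℕ) (x0 b l : ℤ) :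
    Measurable (fun a => MG (K a) φ s k x0 b l) := by
  unfold MG
  exact Finset.measurable_sum _ (fun m _ => (measurable_Z hK x0 s m).mul
    (measurable_Fr (fun i x => hK _ _) φ k m))

lemma measurable_GH {α : Type*} [MeasurableSpace α] {K : α → ℕ → ℤ → ℝ}
    (hK : ∀ i x, Measurable (fun a => K a i x)) (φ g : ℤ → ℝ) (s k : ℕ) (b l : ℤ) :
    Measurable (fun a => GH (K a) φ g s k b l) := by
  unfold GH
  exact Finset.measurable_sum _ (fun m _ =>
    (measurable_Fr (fun i x => hK _ _) φ k m).const_mul _)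

/-- the fluctuation bound at a fixed scale -/
theorem fixed (he : IsEnv P ω) (hexp : HasExp P ω) (β h : ℝ) {s k : ℕ} {v : ℝ} {b l D : ℤ}
    {r : ℕ} (g : Gm s v b l D r) (gf : ℤ → ℝ) {q t lam δ : ℝ} (hq : 1 / 2 < q) (hq1 : q ≤ 1)
    (ht : 0 < t) (hδ : 0 ≤ δ)
    (h1 : 1 - δ ≤ qf P ω β h (s + k) v r q) (h3 : 1 - δ ≤ qf P ω β h k v r q)
    (h4 : (∫ a, GF (wt β (fld ω a)) s b l D ∂P) / t ≤ δ)
    (h5 : 1 - δ ≤ P.real {a | ∀ m, b ≤ m → m ≤ b + l → (m - s) % 2 = 0 →
      |Real.log (Z (wt β (fld ω a)) 0 s m) - gf m| ≤ lam}) :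
    ∃ m, 1 - 15 * δ ≤ P.real {a | |Real.log (Fr (wt β (fld ω a)) (dr h) (s + k) 0) - m| ≤
      2 * t + lam + 4} := by
  have hlog : Real.log q ≤ 0 := Real.log_nonpos (by linarith) hq1
  have hlog1 : - Real.log q ≤ 1 := by
    have := Real.one_sub_inv_le_log_of_pos (show (0 : ℝ) < q by linarith)
    have h2 : q⁻¹ ≤ 2 := by
      rw [inv_le_comm₀ (by linarith) (by norm_num)]
      linarith
    linarith
  set Y : (ℕ → ℤ → ℝ) → ℝ := fun η =>
    Real.log (Fr (mulK (tubF 0 v r) (wt β η)) (dr h) (s + k) 0) with hY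
  set M : (ℕ → ℤ → ℝ) → ℝ := fun η =>
    Real.log (MG (mulK (barF s v r) (wt β η)) (dr h) s k 0 (b + D) l) with hM
  set G : (ℕ → ℤ → ℝ) → ℝ := fun η =>
    Real.log (GH (wt β η) (dr h) gf s k b l) with hG
  have mY : Measurable Y := Real.measurable_log.comp
    (measurable_Fr (fun i x => (measurable_wt β i x).const_mul _) _ _ _)
  have mM : Measurable M := Real.measurable_log.comp
    (measurable_MG (fun i x => (measurable_wt β i x).const_mul _) _ _ _ _ _ _)
  have mG : Measurable G := Real.measurable_log.comp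
    (measurable_GH (fun i x => measurable_wt β i x) _ _ _ _ _ _)
  set E1 := {a | CF (wt β (fld ω a)) h (s + k) 0 v r q} with hE1
  set E2 := {a | CF (sh 0 (wt β (fld ω a))) h (s + k) D v r q} with hE2
  set E3 := {a | CF (sh s (wt β (fld ω a))) h k (b + D) v r q} with hE3
  set E4 := {a | t < GF (wt β (fld ω a)) s b l D} with hE4
  set E5 := {a | ∀ m, b ≤ m → m ≤ b + l → (m - s) % 2 = 0 →
      |Real.log (Z (wt β (fld ω a)) 0 s m) - gf m| ≤ lam} with hE5
  have m1 : MeasurableSet E1 := measurableSet_CF (fun i x => measurable_wt' he β i x) _ _ _ _ _ _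
  have m2 : MeasurableSet E2 := measurableSet_CF (fun i x => measurable_wt' he β _ _) _ _ _ _ _ _
  have m3 : MeasurableSet E3 := measurableSet_CF (fun i x => measurable_wt' he β _ _) _ _ _ _ _ _
  have m5 : MeasurableSet E5 := by
    have : E5 = ⋂ m : ℤ, ⋂ _ : b ≤ m, ⋂ _ : m ≤ b + l, ⋂ _ : (m - s) % 2 = 0,
        {a | |Real.log (Z (wt β (fld ω a)) 0 s m) - gf m| ≤ lam} := by
      ext a; simp [hE5]
    rw [this]
    refine MeasurableSet.iInter fun m => MeasurableSet.iInter fun _ => MeasurableSet.iInter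
      fun _ => MeasurableSet.iInter fun _ => ?_
    exact measurableSet_le (((Real.measurable_log.comp
      (measurable_Z (fun i x => measurable_wt' he β i x) _ _ _)).sub_const _).abs) measurable_const
  have q1 : P.real E1 = qf P ω β h (s + k) v r q := rfl
  have q2 : P.real E2 = qf P ω β h (s + k) v r q := qf_shift he β h (s + k) v r q 0 D
  have q3 : P.real E3 = qf P ω β h k v r q := qf_shift he β h k v r q s (b + D)
  have hGi := integrable_GF he hexp β g
  have hMk := mul_meas_ge_le_integral_of_nonneg (μ := P)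
    (f := fun a => GF (wt β (fld ω a)) s b l D)
    (Filter.Eventually.of_forall (fun a => GF_nonneg (fun i x => wt_pos _ _ _ _) g)) hGi.1 t
  have h4' : P.real E4 ≤ δ := by
    refine le_trans ?_ h4
    rw [le_div_iff₀ ht]
    have : P.real E4 ≤ P.real {a | t ≤ GF (wt β (fld ω a)) s b l D} := by
      apply measureReal_mono _ (measure_ne_top _ _)
      intro a ha
      exact (show t < GF (wt β (fld ω a)) s b l D from ha).le
    nlinarith
  set Bad := E1ᶜ ∪ (E2ᶜ ∪ (E3ᶜ ∪ (E4 ∪ E5ᶜ))) with hBad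
  have hBadp : P.real Bad ≤ 5 * δ := by
    have u2 := measureReal_union_le (μ := P) E1ᶜ (E2ᶜ ∪ (E3ᶜ ∪ (E4 ∪ E5ᶜ)))
    have u3 := measureReal_union_le (μ := P) E2ᶜ (E3ᶜ ∪ (E4 ∪ E5ᶜ))
    have u4 := measureReal_union_le (μ := P) E3ᶜ (E4 ∪ E5ᶜ)
    have u5 := measureReal_union_le (μ := P) E4 E5ᶜ
    rw [compl_bound m1, q1] at u2
    rw [compl_bound m2, q2] at u3
    rw [compl_bound m3, q3] at u4
    rw [compl_bound m5] at u5
    linarith
  -- the deterministic estimates off the bad event
  have det : ∀ a, a ∉ Bad → |Y (fld ω a) - M (fld ω a)| ≤ t - Real.log q ∧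
      |Y (fld ω a) - G (fld ω a)| ≤ lam - Real.log q ∧
      |Real.log (Fr (wt β (fld ω a)) (dr h) (s + k) 0) - Y (fld ω a)| ≤ - Real.log q := by
    intro a ha
    rw [hBad, Set.mem_union, Set.mem_union, Set.mem_union, Set.mem_union, not_or, not_or, not_or,
      not_or, Set.notMem_compl_iff, Set.notMem_compl_iff, Set.notMem_compl_iff,
      Set.notMem_compl_iff] at ha
    obtain ⟨a1, a2, a3, a4, a5⟩ := ha
    simp only [hE4, Set.mem_ofPred_eq, not_lt] at a4
    simp only [hE2, Set.mem_ofPred_eq, sh_zero] at a2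
    have hd := det_core (K := wt β (fld ω a)) (fun i x => wt_pos _ _ _ _) g hq a1 a2 a3 a4
    obtain ⟨⟨d1, d2⟩, ⟨d3, d4⟩, ⟨d5, d6⟩⟩ := hd
    have c1 := g.hb; have c3 := g.hl0; have c4 := g.hD; have c5 := g.hlD
    have c6 := g.b1; have c7 := g.b2
    have hn := GH_near (K := wt β (fld ω a)) (fun i x => wt_pos _ _ _ _) (dr_pos h) (g := gf)
      (s := s) (k := k) (b := b) (l := l) c3 c1 (by omega) (by omega) (lam := lam) a5
    have hn' := abs_le.1 hn
    refine ⟨?_, ?_, ?_⟩
    · rw [abs_le]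
      simp only [hY, hM]
      constructor <;> linarith
    · rw [abs_le]
      simp only [hY, hG]
      constructor <;> linarith [hn'.1, hn'.2]
    · rw [abs_le]
      simp only [hY]
      constructor <;> linarith
  obtain ⟨m, hm⟩ := three he (RA s) (RB v r s) (Y := Y) (M := M) (G := G) mY mM mG
    (by
      intro η η' hh
      simp only [hY]
      have : mulK (tubF 0 v r) (wt β η) = mulK (tubF 0 v r) (wt β η') := by
        funext i x
        unfold mulK tubF
        split_ifs with hc
        · have : (i, x) ∈ RA s ∪ RB v r s := by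
            rcases le_or_gt i s with his | his
            · exact Or.inl his
            · refine Or.inr ⟨his, ?_⟩
              simpa using hc
          unfold wt
          rw [hh i x this]
        · simp
      rw [this])
    (by
      intro η η' hh
      simp only [hM]
      have : mulK (barF s v r) (wt β η) = mulK (barF s v r) (wt β η') := by
        funext i x
        unfold mulK barF
        split_ifs with hc hc2
        · have : (i, x) ∈ RA s ∨ (i, x) ∉ RB v r s := by
            right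
            rintro ⟨_, h7⟩
            rw [abs_le] at h7
            simp only at h7
            linarith [h7.2]
          unfold wt
          rw [hh i x this]
        · simp
        · unfold wt
          rw [hh i x (Or.inl (by simpa [RA] using hc))]
      rw [this])
    (by
      intro η η' hh
      simp only [hG]
      congr 1
      unfold GH
      apply Finset.sum_congr rfl
      intro m _
      congr 1
      apply Fr_congr
      intro i x hi
      unfold sh wt
      rw [hh (s + i) x (by unfold RA; simp only [Set.mem_ofPred_eq]; omega)])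
    (L1 := t - Real.log q) (L2 := lam - Real.log q) (δ := 5 * δ) (by positivity)
    (by
      refine le_trans ?_ hBadp
      apply measureReal_mono _ (measure_ne_top _ _)
      intro a ha
      by_contra hcon
      exact ha ⟨(det a hcon).1, (det a hcon).2.1⟩)
  refine ⟨m, ?_⟩
  have hsub : {a | |Y (fld ω a) - m| ≤ 2 * (t - Real.log q) + (lam - Real.log q)} ⊆
      {a | |Real.log (Fr (wt β (fld ω a)) (dr h) (s + k) 0) - m| ≤ 2 * t + lam + 4} ∪ Bad := by
    intro a ha
    by_cases hb : a ∈ Bad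
    · exact Or.inr hb
    · left
      have d := (det a hb).2.2
      have d' := abs_le.1 d
      have ha' : |Y (fld ω a) - m| ≤ 2 * (t - Real.log q) + (lam - Real.log q) := ha
      have ha'' := abs_le.1 ha'
      simp only [Set.mem_ofPred_eq]
      rw [abs_le]
      constructor <;> linarith [d'.1, d'.2, ha''.1, ha''.2]
  have u := (measureReal_mono (μ := P) hsub (measure_ne_top _ _)).trans
    (measureReal_union_le _ _)
  linarith

end Pool.Agent.K1H53.KP
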